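import Pool.Agent.N610.MS.Stm

/-!
# Bonferroni inequalities for products (BON of project MS)
-/

set_option autoImplicit false

namespace Pool.Agent.N610.MS

open Finset

namespace BON

theorem e_zero (P : Finset ℕ) (x : ℕ → ℝ) : e P x 0 = 1 := by
  unfold e
  rw [powersetCard_zero, sum_singleton, prod_empty]

theorem e_empty (x : ℕ → ℝ) (j : ℕ) : e (∅ : Finset ℕ) x (j + 1) = 0 := by
  unfold e
  rw [powersetCard_eq_empty.2 (by simp), sum_empty]

theorem e_nonneg (P : Finset ℕ) (x : ℕ → ℝ) (h : ∀ p ∈ P, 0 ≤ x p) (j : ℕ) : 0 ≤ e P x j := by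
  unfold e
  apply sum_nonneg
  intro T hT
  apply prod_nonneg
  intro p hp
  exact h p ((mem_powersetCard.1 hT).1 hp)

theorem e_insert (P : Finset ℕ) (x : ℕ → ℝ) (q : ℕ) (hq : q ∉ P) (j : ℕ) :
    e (insert q P) x (j + 1) = e P x (j + 1) + x q * e P x j := by
  unfold e
  rw [powersetCard_succ_insert hq, sum_union, sum_image]
  · congr 1
    rw [mul_sum]
    apply sum_congr rfl
    intro T hT
    rw [prod_insert]
    intro h
    exact hq ((mem_powersetCard.1 hT).1 h)
  · intro S hS T hT h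
    have h1 : q ∉ S := fun h => hq ((mem_powersetCard.1 hS).1 h)
    have h2 : q ∉ T := fun h => hq ((mem_powersetCard.1 hT).1 h)
    rw [← erase_insert h1, ← erase_insert h2]
    exact congrArg (fun s => s.erase q) h
  · rw [disjoint_left]
    intro T h1 h2
    rw [mem_image] at h2
    obtain ⟨S, _, rfl⟩ := h2
    exact hq ((mem_powersetCard.1 h1).1 (mem_insert_self q S))

theorem e_erase (P : Finset ℕ) (x : ℕ → ℝ) (q : ℕ) (hq : q ∈ P) (j : ℕ) :
    e P x (j + 1) = e (P.erase q) x (j + 1) + x q * e (P.erase q) x j := by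
  have := e_insert (P.erase q) x q (notMem_erase q P) j
  rwa [insert_erase hq] at this

theorem e_erase_le (P : Finset ℕ) (x : ℕ → ℝ) (h : ∀ p ∈ P, 0 ≤ x p) (q : ℕ) (hq : q ∈ P)
    (j : ℕ) : e (P.erase q) x j ≤ e P x j := by
  rcases j with _ | j
  · rw [e_zero, e_zero]
  · rw [e_erase P x q hq j]
    have h1 : 0 ≤ x q * e (P.erase q) x j := mul_nonneg (h q hq)
      (e_nonneg _ _ (fun p hp => h p (mem_of_mem_erase hp)) _)
    linarith

theorem alt_zero (P : Finset ℕ) (x : ℕ → ℝ) : alt P x 0 = 1 := by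
  unfold alt
  simp [e_zero]

theorem alt_empty (x : ℕ → ℝ) (k : ℕ) : alt (∅ : Finset ℕ) x k = 1 := by
  unfold alt
  rw [sum_range_succ']
  simp [e_empty, e_zero]

theorem alt_insert (P : Finset ℕ) (x : ℕ → ℝ) (q : ℕ) (hq : q ∉ P) (k : ℕ) :
    alt (insert q P) x (k + 1) = alt P x (k + 1) - x q * alt P x k := by
  unfold alt
  rw [sum_range_succ' _ (k + 1), sum_range_succ' (fun j => (-1 : ℝ) ^ j * e P x j) (k + 1),
    e_zero, e_zero, mul_sum]
  have h : ∀ j, (-1 : ℝ) ^ (j + 1) * e (insert q P) x (j + 1) =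
      (-1) ^ (j + 1) * e P x (j + 1) - x q * ((-1) ^ j * e P x j) := by
    intro j
    rw [e_insert P x q hq]
    ring
  simp_rw [h]
  rw [sum_sub_distrib]
  ring

theorem bonf (x : ℕ → ℝ) (P : Finset ℕ) (hP : ∀ p ∈ P, 0 ≤ x p ∧ x p ≤ 1) :
    ∀ k : ℕ, 0 ≤ (-1) ^ k * (alt P x k - ∏ p ∈ P, (1 - x p)) ∧
      (-1) ^ k * (alt P x k - ∏ p ∈ P, (1 - x p)) ≤ e P x (k + 1) := by
  induction P using Finset.induction_on with
  | empty =>
    intro k
    rw [alt_empty, e_empty, prod_empty]
    simp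
  | insert q P hq ih =>
    have hP' : ∀ p ∈ P, 0 ≤ x p ∧ x p ≤ 1 := fun p hp => hP p (mem_insert_of_mem hp)
    have hx := hP q (mem_insert_self q P)
    have IH := ih hP'
    rw [prod_insert hq]
    have h0 : 0 ≤ ∏ p ∈ P, (1 - x p) := prod_nonneg fun p hp => by linarith [(hP' p hp).2]
    have h1 : ∏ p ∈ P, (1 - x p) ≤ 1 :=
      prod_le_one (fun p hp => by linarith [(hP' p hp).2]) (fun p hp => by linarith [(hP' p hp).1])
    intro k
    rcases k with _ | k
    · rw [alt_zero, e_insert P x q hq, e_zero]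
      have h2 := IH 0
      rw [alt_zero] at h2
      generalize ∏ p ∈ P, (1 - x p) = R at *
      simp only [pow_zero, one_mul, zero_add] at h2 ⊢
      obtain ⟨ha, hb⟩ := h2
      constructor
      · nlinarith
      · nlinarith
    · rw [alt_insert P x q hq, e_insert P x q hq]
      have h2 := IH (k + 1)
      have h3 := IH k
      generalize ∏ p ∈ P, (1 - x p) = R at *
      have h4 : (-1 : ℝ) ^ (k + 1) * (alt P x (k + 1) - x q * alt P x k - (1 - x q) * R) =
          (-1) ^ (k + 1) * (alt P x (k + 1) - R) + x q * ((-1) ^ k * (alt P x k - R)) := by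
        rw [pow_succ]
        ring
      rw [h4]
      have h5 := mul_nonneg hx.1 h3.1
      have h6 := mul_le_mul_of_nonneg_left h3.2 hx.1
      constructor
      · linarith [h2.1]
      · linarith [h2.2]

theorem newton (x : ℕ → ℝ) (P : Finset ℕ) : ∀ j : ℕ,
    ((j : ℝ) + 1) * e P x (j + 1) = ∑ p ∈ P, x p * e (P.erase p) x j := by
  induction P using Finset.induction_on with
  | empty =>
    intro j
    rw [e_empty, sum_empty, mul_zero]
  | insert q P hq ih =>
    have hne : ∀ p ∈ P, (insert q P).erase p = insert q (P.erase p) := by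
      intro p hp
      rw [erase_insert_of_ne]
      rintro rfl
      exact hq hp
    have hq' : ∀ p ∈ P, q ∉ P.erase p := fun p _ h => hq (mem_of_mem_erase h)
    intro j
    rw [sum_insert hq, erase_insert hq, e_insert P x q hq]
    rcases j with _ | j
    · have h1 := ih 0
      have h2 : ∑ p ∈ P, x p * e ((insert q P).erase p) x 0 = ∑ p ∈ P, x p * e (P.erase p) x 0 := by
        apply sum_congr rfl
        intro p _
        rw [e_zero, e_zero]
      rw [h2, ← h1, e_zero]
      push_cast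
      ring
    · have h1 := ih (j + 1)
      have h2 := ih j
      have h3 : ∑ p ∈ P, x p * e ((insert q P).erase p) x (j + 1) =
          ∑ p ∈ P, x p * e (P.erase p) x (j + 1) + x q * ∑ p ∈ P, x p * e (P.erase p) x j := by
        rw [mul_sum, ← sum_add_distrib]
        apply sum_congr rfl
        intro p hp
        rw [hne p hp, e_insert _ x q (hq' p hp)]
        ring
      rw [h3, ← h1, ← h2]
      push_cast
      ring

theorem up (x : ℕ → ℝ) (P : Finset ℕ) (hP : ∀ p ∈ P, 0 ≤ x p) (j : ℕ) :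
    e P x j ≤ (∑ p ∈ P, x p) ^ j / j.factorial := by
  have hs : 0 ≤ ∑ p ∈ P, x p := sum_nonneg hP
  induction j with
  | zero =>
    rw [e_zero]
    simp
  | succ j ih =>
    have h1 := newton x P j
    have h2 : ∑ p ∈ P, x p * e (P.erase p) x j ≤ (∑ p ∈ P, x p) * e P x j := by
      rw [sum_mul]
      apply sum_le_sum
      intro p hp
      exact mul_le_mul_of_nonneg_left (e_erase_le P x hP p hp j) (hP p hp)
    have h3 : (∑ p ∈ P, x p) * e P x j ≤ (∑ p ∈ P, x p) * ((∑ p ∈ P, x p) ^ j / j.factorial) :=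
      mul_le_mul_of_nonneg_left ih hs
    have hj : (0 : ℝ) < (j : ℝ) + 1 := by positivity
    have hf : (0 : ℝ) < (j.factorial : ℝ) := by
      exact_mod_cast j.factorial_pos
    rw [Nat.factorial_succ]
    push_cast
    rw [le_div_iff₀ (by positivity)]
    generalize (∑ p ∈ P, x p) = s at *
    have h4 : s * (s ^ j / j.factorial) * j.factorial = s ^ (j + 1) := by
      field_simp
      ring
    calc e P x (j + 1) * (((j : ℝ) + 1) * j.factorial) =
        (((j : ℝ) + 1) * e P x (j + 1)) * j.factorial := by ring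
      _ ≤ (s * (s ^ j / j.factorial)) * j.factorial := by
          apply mul_le_mul_of_nonneg_right _ hf.le
          linarith
      _ = s ^ (j + 1) := h4

theorem low (x : ℕ → ℝ) (P : Finset ℕ) (hP : ∀ p ∈ P, 0 ≤ x p) (hs1 : ∑ p ∈ P, x p ≤ 1) (j : ℕ) :
    (∑ p ∈ P, x p) ^ j / j.factorial - j * ∑ p ∈ P, x p ^ 2 ≤ e P x j := by
  have hs : 0 ≤ ∑ p ∈ P, x p := sum_nonneg hP
  have hQ : 0 ≤ ∑ p ∈ P, x p ^ 2 := sum_nonneg fun p _ => sq_nonneg _
  have hle1 : ∀ j, e P x j ≤ 1 := by
    intro j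
    refine (up x P hP j).trans ?_
    have hf : (1 : ℝ) ≤ (j.factorial : ℝ) := by
      exact_mod_cast j.factorial_pos
    rw [div_le_one (by linarith)]
    exact (pow_le_one₀ hs hs1).trans hf
  induction j with
  | zero =>
    rw [e_zero]
    simp
  | succ j ih =>
    rcases j with _ | j
    · have h1 := newton x P 0
      have h2 : ∑ p ∈ P, x p * e (P.erase p) x 0 = ∑ p ∈ P, x p := by
        apply sum_congr rfl
        intro p _
        rw [e_zero, mul_one]
      rw [h2] at h1
      push_cast at h1 ⊢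
      simp only [zero_add, one_mul, pow_one, Nat.factorial_one, Nat.cast_one, div_one] at h1 ⊢
      rw [h1]
      linarith
    · have h1 := newton x P (j + 1)
      have h2 : ∑ p ∈ P, x p * e (P.erase p) x (j + 1) =
          (∑ p ∈ P, x p) * e P x (j + 1) - ∑ p ∈ P, x p ^ 2 * e (P.erase p) x j := by
        rw [sum_mul, ← sum_sub_distrib]
        apply sum_congr rfl
        intro p hp
        rw [e_erase P x p hp j]
        ring
      have h3 : ∑ p ∈ P, x p ^ 2 * e (P.erase p) x j ≤ ∑ p ∈ P, x p ^ 2 := by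
        apply sum_le_sum
        intro p hp
        have : e (P.erase p) x j ≤ 1 := (e_erase_le P x hP p hp j).trans (hle1 j)
        calc x p ^ 2 * e (P.erase p) x j ≤ x p ^ 2 * 1 :=
              mul_le_mul_of_nonneg_left this (sq_nonneg _)
          _ = x p ^ 2 := mul_one _
      have hj : (0 : ℝ) < ((j + 1 : ℕ) : ℝ) + 1 := by positivity
      have hf : (0 : ℝ) < ((j + 1).factorial : ℝ) := by
        exact_mod_cast (j + 1).factorial_pos
      have h4 : (∑ p ∈ P, x p) * ((∑ p ∈ P, x p) ^ (j + 1) / (j + 1).factorial -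
          ((j + 1 : ℕ) : ℝ) * ∑ p ∈ P, x p ^ 2) ≤ (∑ p ∈ P, x p) * e P x (j + 1) :=
        mul_le_mul_of_nonneg_left ih hs
      rw [h2] at h1
      have e5 : (∑ p ∈ P, x p) ^ (j + 1 + 1) / ((j + 1 + 1).factorial : ℝ) =
          (∑ p ∈ P, x p) * ((∑ p ∈ P, x p) ^ (j + 1) / (j + 1).factorial) /
            (((j + 1 : ℕ) : ℝ) + 1) := by
        rw [Nat.factorial_succ (j + 1)]
        push_cast
        field_simp
        ring
      rw [e5]
      generalize (∑ p ∈ P, x p) ^ (j + 1) / ((j + 1).factorial : ℝ) = A at *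
      generalize (∑ p ∈ P, x p) = s at *
      generalize (∑ p ∈ P, x p ^ 2) = Q at *
      generalize e P x (j + 1 + 1) = E2 at *
      generalize e P x (j + 1) = E1 at *
      have e6 : ((j + 1 + 1 : ℕ) : ℝ) = ((j + 1 : ℕ) : ℝ) + 1 := by push_cast; ring
      rw [e6]
      have hJ : (0 : ℝ) ≤ ((j + 1 : ℕ) : ℝ) := Nat.cast_nonneg _
      generalize ((j + 1 : ℕ) : ℝ) = J at *
      rw [sub_le_iff_le_add, div_le_iff₀ hj]
      have h7 : s * (J * Q) ≤ J * Q := by
        calc s * (J * Q) ≤ 1 * (J * Q) := mul_le_mul_of_nonneg_right hs1 (mul_nonneg hJ hQ)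
          _ = J * Q := one_mul _
      have h8 : 0 ≤ J * Q := mul_nonneg hJ hQ
      nlinarith [mul_nonneg hJ h8]

end BON

theorem t_BON : S_BON := by
  intro P x hP
  refine ⟨BON.bonf x P hP, BON.up x P fun p hp => (hP p hp).1, fun h => BON.low x P (fun p hp => (hP p hp).1) h⟩

end Pool.Agent.N610.MS
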