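import Pool.Agent.N610.MS.Stm
import Pool.Agent.H510R2.Maier.MA4

set_option autoImplicit false

/-!
# Project MS: choice of the primes of the modulus (CNT)
-/

namespace Pool.Agent.N610.MS.CNTaux

open Finset Filter Topology
open Pool.Agent.N610.MS
open Pool.Agent.H378R2 (WW PW GoodS)

lemma alt_succ {ι : Type} [DecidableEq ι] (P : Finset ι) (x : ι → ℝ) (k : ℕ) :
    alt P x (k + 1) = alt P x k + (-1) ^ (k + 1) * e P x (k + 1) := by
  rw [alt, alt, sum_range_succ]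

lemma one_sub_sum_le (P : Finset ℕ) (x : ℕ → ℝ) (hx : ∀ p ∈ P, 0 ≤ x p ∧ x p ≤ 1) :
    1 - ∑ p ∈ P, x p ≤ ∏ p ∈ P, (1 - x p) ∧ ∏ p ∈ P, (1 - x p) ≤ 1 ∧
      0 ≤ ∏ p ∈ P, (1 - x p) := by
  classical
  induction P using Finset.induction_on with
  | empty => simp
  | insert a s ha ih =>
    obtain ⟨h1, h2, h3⟩ := ih (fun p hp => hx p (mem_insert_of_mem hp))
    obtain ⟨h4, h5⟩ := hx a (mem_insert_self a s)
    rw [sum_insert ha, prod_insert ha]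
    refine ⟨?_, ?_, ?_⟩
    · nlinarith
    · nlinarith
    · exact mul_nonneg (by linarith) h3

/-- powers of `1 ± ν`, `ν = 1 / (8 n)` -/
lemma pow_bounds (n : ℕ) (hn : 1 ≤ n) : 7 / 8 ≤ (1 - 1 / (8 * (n : ℝ))) ^ n ∧
    (1 + 1 / (8 * (n : ℝ))) ^ n ≤ 2 := by
  have hn0 : (0 : ℝ) < n := by exact_mod_cast hn
  have hn1 : (1 : ℝ) ≤ n := by exact_mod_cast hn
  have hν0 : 0 < 1 / (8 * (n : ℝ)) := by positivity
  have hν1 : 1 / (8 * (n : ℝ)) ≤ 1 / 8 := by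
    apply one_div_le_one_div_of_le (by norm_num)
    linarith
  have h1 : 7 / 8 ≤ (1 - 1 / (8 * (n : ℝ))) ^ n := by
    have h := one_add_mul_le_pow (a := -(1 / (8 * (n : ℝ)))) (by linarith) n
    have e1 : 1 + (n : ℝ) * -(1 / (8 * (n : ℝ))) = 7 / 8 := by
      field_simp
      norm_num
    rw [e1] at h
    simpa [sub_eq_add_neg] using h
  refine ⟨h1, ?_⟩
  have h2 : (1 + 1 / (8 * (n : ℝ))) ^ n * (1 - 1 / (8 * (n : ℝ))) ^ n ≤ 1 := by
    rw [← mul_pow]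
    apply pow_le_one₀
    · apply mul_nonneg <;> linarith
    · nlinarith
  have h3 : 0 ≤ (1 + 1 / (8 * (n : ℝ))) ^ n := by positivity
  nlinarith

/-- the deterministic part -/
lemma core (h1 : S_BON) (h2 : S_LEG) (P : Finset ℕ) (hP : ∀ p ∈ P, p.Prime) (k : ℕ)
    (hk : 1 ≤ k) (σ s0 C β δ Ya Yb Yc : ℝ) (hσ : σ = (-1) ^ k) (hs0 : 0 < s0)
    (hs4 : s0 ≤ 1 / 4) (hC : 0 < C) (hsC : s0 ≤ 1 / (32 * C))
    (hδ : δ = s0 ^ (k + 1) / (4 * (k + 1).factorial))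
    (hlo : s0 * (1 - 1 / (8 * ((k : ℝ) + 2))) ≤ ∑ p ∈ P, 1 / (p : ℝ))
    (hhi : ∑ p ∈ P, 1 / (p : ℝ) ≤ s0 * (1 + 1 / (8 * ((k : ℝ) + 2))))
    (hQ : ((k : ℝ) + 1) * ∑ p ∈ P, (1 / (p : ℝ)) ^ 2 ≤ δ / 6)
    (hβ0 : 0 ≤ β) (hβ1 : β ≤ δ / 6) (hβ2 : β ≤ δ / (4 * C))
    (hYa : 0 < Ya) (hca : ((P.card : ℝ) + 1) ^ k ≤ β * Ya) (hac : Ya ≤ Yc)
    (hcc : ((P.card : ℝ) + 1) ^ (k + 1) ≤ β * Yc)
    (hT : ∀ T ∈ P.powersetCard (k + 1), Yb < ∏ p ∈ T, (p : ℝ)) :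
    1 / 2 ≤ ∏ p ∈ P, (1 - 1 / (p : ℝ)) ∧
    (∀ y : ℝ, Ya ≤ y → y ≤ Yb → 2 * δ ≤ σ * (rel P y - 1)) ∧
    (∀ y : ℝ, Ya ≤ y → -(δ / C) ≤ σ * (rel P y - 1)) ∧
    (∀ y : ℝ, Yc ≤ y → |rel P y - 1| ≤ δ / C) := by
  set x : ℕ → ℝ := fun p => 1 / (p : ℝ) with hxdef
  have hx : ∀ p ∈ P, 0 ≤ x p ∧ x p ≤ 1 := by
    intro p hp
    have hp1 : (1 : ℝ) ≤ p := by exact_mod_cast (hP p hp).one_lt.le
    refine ⟨by positivity, ?_⟩
    rw [hxdef]
    exact (div_le_one (by linarith)).mpr hp1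
  obtain ⟨hb1, hb2, hb3⟩ := h1 P x hx
  have hBprod : ∏ p ∈ P, (1 - 1 / (p : ℝ)) = ∏ p ∈ P, (1 - x p) := rfl
  have hsum : ∑ p ∈ P, 1 / (p : ℝ) = ∑ p ∈ P, x p := rfl
  have hsum2 : ∑ p ∈ P, (1 / (p : ℝ)) ^ 2 = ∑ p ∈ P, x p ^ 2 := rfl
  obtain ⟨hB1, hB2, hB3⟩ := one_sub_sum_le P x hx
  rw [hBprod]
  rw [hsum] at hlo hhi
  rw [hsum2] at hQ
  set s := ∑ p ∈ P, x p with hs
  set Q := ∑ p ∈ P, x p ^ 2 with hQdef
  set B := ∏ p ∈ P, (1 - x p) with hB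
  set e1 := e P x (k + 1) with he1
  set e2 := e P x (k + 1 + 1) with he2
  -- bounds for s
  have hkR : (1 : ℝ) ≤ k := by exact_mod_cast hk
  have hν0 : 0 < 1 / (8 * ((k : ℝ) + 2)) := by positivity
  have hν1 : 1 / (8 * ((k : ℝ) + 2)) ≤ 1 / 24 := by
    apply one_div_le_one_div_of_le (by norm_num)
    linarith
  have hs_hi : s ≤ 1 / 2 := by
    have h3 : s0 * (1 + 1 / (8 * ((k : ℝ) + 2))) ≤ 1 / 4 * (1 + 1 / 24) :=
      mul_le_mul hs4 (by linarith) (by linarith) (by norm_num)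
    linarith
  have hs_nonneg : 0 ≤ s := by
    refine le_trans ?_ hlo
    apply mul_nonneg hs0.le
    linarith
  obtain ⟨hp1, hp2⟩ := pow_bounds (k + 2) (by omega)
  have hcast : (((k + 2 : ℕ) : ℝ)) = (k : ℝ) + 2 := by push_cast; ring
  rw [hcast] at hp1 hp2
  have hspow1 : 7 / 8 * s0 ^ (k + 1) ≤ s ^ (k + 1) := by
    have h3 : (s0 * (1 - 1 / (8 * ((k : ℝ) + 2)))) ^ (k + 1) ≤ s ^ (k + 1) :=
      pow_le_pow_left₀ (mul_nonneg hs0.le (by linarith)) hlo _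
    rw [mul_pow] at h3
    have h4 : 7 / 8 ≤ (1 - 1 / (8 * ((k : ℝ) + 2))) ^ (k + 1) := by
      refine hp1.trans ?_
      apply pow_le_pow_of_le_one
      · linarith
      · linarith
      · omega
    have h5 : 0 < s0 ^ (k + 1) := by positivity
    have h6 := mul_le_mul_of_nonneg_left h4 h5.le
    linarith
  have hspow2 : s ^ (k + 2) ≤ 2 * s0 ^ (k + 2) := by
    have h3 : s ^ (k + 2) ≤ (s0 * (1 + 1 / (8 * ((k : ℝ) + 2)))) ^ (k + 2) :=
      pow_le_pow_left₀ hs_nonneg hhi _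
    rw [mul_pow] at h3
    have h5 : 0 < s0 ^ (k + 2) := by positivity
    have h6 := mul_le_mul_of_nonneg_left hp2 h5.le
    linarith
  have hfpos : (0 : ℝ) < (k + 1).factorial := by positivity
  have hE : s0 ^ (k + 1) / (k + 1).factorial = 4 * δ := by
    rw [hδ]; field_simp
  have hδpos : 0 < δ := by rw [hδ]; positivity
  -- e1 lower bound
  have he1lo : 7 / 2 * δ - δ / 6 ≤ e1 := by
    have h3 := hb3 (by linarith) (k + 1)
    have h4 : 7 / 8 * (s0 ^ (k + 1) / (k + 1).factorial) ≤ s ^ (k + 1) / (k + 1).factorial := by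
      rw [← mul_div_assoc]
      exact div_le_div_of_nonneg_right hspow1 hfpos.le
    rw [hE] at h4
    have h5 : (((k + 1 : ℕ) : ℝ)) = (k : ℝ) + 1 := by push_cast; ring
    rw [h5] at h3
    linarith
  -- e2 upper bound
  have hF : e2 ≤ 4 * δ * (2 * s0 / (k + 2)) := by
    refine (hb2 (k + 1 + 1)).trans ?_
    have h3 : ((k + 1 + 1).factorial : ℝ) = ((k : ℝ) + 2) * (k + 1).factorial := by
      rw [Nat.factorial_succ (k + 1)]
      push_cast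
      ring
    rw [h3, ← hE]
    have h4 : s ^ (k + 1 + 1) ≤ 2 * s0 ^ (k + 1 + 1) := hspow2
    have h5 : s0 ^ (k + 1) / ((k + 1).factorial : ℝ) * (2 * s0 / (k + 2)) =
        (2 * s0 ^ (k + 1 + 1)) / (((k : ℝ) + 2) * (k + 1).factorial) := by
      rw [pow_succ s0 (k + 1)]
      field_simp
    rw [h5]
    exact div_le_div_of_nonneg_right h4 (by positivity)
  have he2a : e2 ≤ 2 / 3 * δ := by
    have h3 : 2 * s0 / (k + 2) ≤ 1 / 6 := by
      rw [div_le_iff₀ (by positivity)]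
      linarith
    have h4 := mul_le_mul_of_nonneg_left h3 (by linarith : (0 : ℝ) ≤ 4 * δ)
    linarith
  have he2b : e2 ≤ δ / (12 * C) := by
    have h3 : 2 * s0 / (k + 2) ≤ 1 / (48 * C) := by
      rw [div_le_div_iff₀ (by positivity) (by positivity)]
      rw [le_div_iff₀ (by positivity)] at hsC
      have h5 : 2 * s0 * (48 * C) = 3 * (s0 * (32 * C)) := by ring
      rw [h5]
      linarith
    have h4 : δ / (12 * C) = 4 * δ * (1 / (48 * C)) := by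
      field_simp
      norm_num
    rw [h4]
    exact hF.trans (mul_le_mul_of_nonneg_left h3 (by linarith))
  have he20 : 0 ≤ e2 := by
    rw [he2, e]
    exact sum_nonneg (fun T hT => prod_nonneg (fun p hp =>
      (hx p ((mem_powersetCard.mp hT).1 hp)).1))
  have hBhalf : 1 / 2 ≤ B := by linarith
  have hBpos : 0 < B := by linarith
  -- Bonferroni
  obtain ⟨hk1, hk2⟩ := hb1 k
  obtain ⟨hk3, hk4⟩ := hb1 (k + 1)
  have hsq : ((-1 : ℝ) ^ k) * (-1) ^ k = 1 := by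
    rw [← mul_pow]; norm_num
  have halt := alt_succ P x k
  set ak := alt P x k with hak
  set ak1 := alt P x (k + 1) with hak1
  have hlow : e1 - e2 ≤ σ * (ak - B) := by
    have h3 : (-1 : ℝ) ^ (k + 1) * (ak1 - B) = - (σ * (ak - B)) + e1 := by
      rw [halt, hσ, pow_succ]
      linear_combination (e1) * hsq
    rw [h3] at hk4
    linarith
  have hσsq : σ * σ = 1 := by rw [hσ]; exact hsq
  have hσabs : |σ| = 1 := by
    rw [hσ, abs_pow, abs_neg, abs_one, one_pow]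
  -- relative density
  have hrel : ∀ y : ℝ, 0 < y → rel P y - 1 = ((V P ⌊y⌋₊ : ℝ) / y - B) / B := by
    intro y hy
    have : rel P y = (V P ⌊y⌋₊ : ℝ) / (y * B) := rfl
    rw [this]
    field_simp
  have hdiv : ∀ (y v w c : ℝ), 0 < y → |v - y * w| ≤ c * y → |v / y - w| ≤ c := by
    intro y v w c hy h
    have h3 : v / y - w = (v - y * w) / y := by field_simp
    rw [h3, abs_div, abs_of_pos hy, div_le_iff₀ hy]
    exact h
  have hσle : ∀ t c : ℝ, |t| ≤ c → -c ≤ σ * t := by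
    intro t c h
    have h3 : |σ * t| ≤ c := by rw [abs_mul, hσabs, one_mul]; exact h
    exact (abs_le.mp h3).1
  refine ⟨hBhalf, ?_, ?_, ?_⟩
  · intro y hy1 hy2
    have hy : 0 < y := hYa.trans_le hy1
    have h3 := (h2 P hP k y hy.le).2 (fun T hT' => lt_of_le_of_lt hy2 (hT T hT'))
    have h4 : |(V P ⌊y⌋₊ : ℝ) - y * ak| ≤ β * y :=
      h3.trans (hca.trans (mul_le_mul_of_nonneg_left hy1 hβ0))
    have h5 := hσle _ _ (hdiv y _ _ _ hy h4)
    rw [hrel y hy]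
    have h6 : 2 * δ ≤ σ * ((V P ⌊y⌋₊ : ℝ) / y - B) := by
      have h7 : σ * ((V P ⌊y⌋₊ : ℝ) / y - B) =
          σ * ((V P ⌊y⌋₊ : ℝ) / y - ak) + σ * (ak - B) := by ring
      rw [h7]
      linarith
    rw [← mul_div_assoc, le_div_iff₀ hBpos]
    have h8 : 2 * δ * B ≤ 2 * δ * 1 := mul_le_mul_of_nonneg_left hB2 (by linarith)
    linarith
  · intro y hy1
    have hy : 0 < y := hYa.trans_le hy1
    have h3 := (h2 P hP k y hy.le).1
    have h4 : |(V P ⌊y⌋₊ : ℝ) - y * ak| ≤ (e1 + β) * y := by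
      refine h3.trans ?_
      have h5 : ((P.card : ℝ) + 1) ^ k ≤ β * y :=
        hca.trans (mul_le_mul_of_nonneg_left hy1 hβ0)
      linarith
    have h5 := hσle _ _ (hdiv y _ _ _ hy h4)
    rw [hrel y hy]
    have h6 : -(e2 + β) ≤ σ * ((V P ⌊y⌋₊ : ℝ) / y - B) := by
      have h7 : σ * ((V P ⌊y⌋₊ : ℝ) / y - B) =
          σ * ((V P ⌊y⌋₊ : ℝ) / y - ak) + σ * (ak - B) := by ring
      rw [h7]
      linarith
    rw [← mul_div_assoc, le_div_iff₀ hBpos]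
    have h8 : δ / (12 * C) + δ / (4 * C) = δ / C * (1 / 3) := by
      field_simp
      norm_num
    have h9 : 0 < δ / C := by positivity
    have h10 := mul_le_mul_of_nonneg_left hBhalf h9.le
    linarith
  · intro y hy1
    have hy : 0 < y := (hYa.trans_le hac).trans_le hy1
    have h3 := (h2 P hP (k + 1) y hy.le).1
    have h4 : |(V P ⌊y⌋₊ : ℝ) - y * ak1| ≤ (e2 + β) * y := by
      refine h3.trans ?_
      have h5 : ((P.card : ℝ) + 1) ^ (k + 1) ≤ β * y :=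
        hcc.trans (mul_le_mul_of_nonneg_left hy1 hβ0)
      linarith
    have h5 := hdiv y _ _ _ hy h4
    have h6 : |ak1 - B| ≤ e2 := by
      have h7 : |(-1 : ℝ) ^ (k + 1) * (ak1 - B)| ≤ e2 := by
        rw [abs_of_nonneg hk3]; exact hk4
      rwa [abs_mul, abs_pow, abs_neg, abs_one, one_pow, one_mul] at h7
    rw [hrel y hy, abs_div, abs_of_pos hBpos, div_le_iff₀ hBpos]
    have h7 : |(V P ⌊y⌋₊ : ℝ) / y - B| ≤ e2 + β + e2 := by
      have h8 : (V P ⌊y⌋₊ : ℝ) / y - B = ((V P ⌊y⌋₊ : ℝ) / y - ak1) + (ak1 - B) := by ring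
      rw [h8]
      exact (abs_add_le _ _).trans (add_le_add h5 h6)
    have h8 : δ / (12 * C) + δ / (4 * C) + δ / (12 * C) = δ / C * (5 / 12) := by
      field_simp
      norm_num
    have h9 : 0 < δ / C := by positivity
    have h10 := mul_le_mul_of_nonneg_left hBhalf h9.le
    linarith

open Pool.Agent.H510R2.Maier (R1 R1_cell)

lemma R1_sub (M N : ℕ) (h : M ≤ N) :
    R1 N - R1 M = ∑ p ∈ (Ioc M N).filter Nat.Prime, 1 / (p : ℝ) := by
  rw [R1, R1, sub_eq_iff_eq_add, add_comm, ← sum_union]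
  · apply sum_congr _ (fun _ _ => rfl)
    ext p
    simp only [mem_filter, mem_Icc, mem_union, mem_Ioc]
    constructor
    · rintro ⟨⟨h1, h2⟩, h3⟩
      by_cases h4 : p ≤ M
      · exact Or.inl ⟨⟨h1, h4⟩, h3⟩
      · exact Or.inr ⟨⟨by omega, h2⟩, h3⟩
    · rintro (⟨⟨h1, h2⟩, h3⟩ | ⟨⟨h1, h2⟩, h3⟩)
      · exact ⟨⟨h1, by omega⟩, h3⟩
      · exact ⟨⟨by omega, h2⟩, h3⟩
  · rw [disjoint_left]
    intro p h1 h2
    simp only [mem_filter, mem_Icc, mem_Ioc] at h1 h2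
    omega

/-- the primes up to `L ^ e` are few -/
lemma card_small (e c : ℝ) (he : 0 < e) (hc : 0 < c) : ∀ᶠ L : ℝ in atTop,
    (((Ioc 0 ⌊L ^ e⌋₊).filter Nat.Prime).card : ℝ) + 1 ≤ c * L ^ e := by
  set c1 : ℝ := min (c / 4) 1 with hc1
  have hc1p : 0 < c1 := by positivity
  have hc1a : c1 ≤ c / 4 := min_le_left _ _
  have hc1b : c1 ≤ 1 := min_le_right _ _
  have h1 := R1_cell 1 c1 e e one_pos hc1p he he
  rw [div_self he.ne', Real.log_one] at h1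
  have h2 := h1.eventually (eventually_le_nhds (show (0 : ℝ) < c / 4 by linarith))
  have h3 : ∀ᶠ L : ℝ in atTop, 4 / c ≤ L ^ e := (tendsto_rpow_atTop he).eventually_ge_atTop _
  filter_upwards [h2, h3, eventually_ge_atTop (1 : ℝ)] with L h4 h5 h6
  have hz : 0 < L ^ e := Real.rpow_pos_of_pos (by linarith) _
  set z := L ^ e with hzdef
  rw [one_mul] at h4
  have hMN : ⌊c1 * z⌋₊ ≤ ⌊z⌋₊ := Nat.floor_le_floor (by nlinarith)
  rw [R1_sub _ _ hMN] at h4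
  have hsub : (Ioc 0 ⌊z⌋₊).filter Nat.Prime ⊆
      Ioc 0 ⌊c1 * z⌋₊ ∪ (Ioc ⌊c1 * z⌋₊ ⌊z⌋₊).filter Nat.Prime := by
    intro p hp
    simp only [mem_filter, mem_union, mem_Ioc] at hp ⊢
    by_cases h7 : p ≤ ⌊c1 * z⌋₊
    · exact Or.inl ⟨hp.1.1, h7⟩
    · exact Or.inr ⟨⟨by omega, hp.1.2⟩, hp.2⟩
  have hcard := (card_le_card hsub).trans (card_union_le _ _)
  rw [Nat.card_Ioc, Nat.sub_zero] at hcard
  have hcardR : (((Ioc 0 ⌊z⌋₊).filter Nat.Prime).card : ℝ) ≤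
      (⌊c1 * z⌋₊ : ℝ) + (((Ioc ⌊c1 * z⌋₊ ⌊z⌋₊).filter Nat.Prime).card : ℝ) := by
    exact_mod_cast hcard
  have h8 : (⌊c1 * z⌋₊ : ℝ) ≤ c / 4 * z :=
    (Nat.floor_le (by positivity)).trans (mul_le_mul_of_nonneg_right hc1a hz.le)
  have h9 : (((Ioc ⌊c1 * z⌋₊ ⌊z⌋₊).filter Nat.Prime).card : ℝ) ≤ c / 4 * z := by
    have h10 : (((Ioc ⌊c1 * z⌋₊ ⌊z⌋₊).filter Nat.Prime).card : ℝ) ≤
        z * ∑ p ∈ (Ioc ⌊c1 * z⌋₊ ⌊z⌋₊).filter Nat.Prime, 1 / (p : ℝ) := by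
      rw [mul_sum, card_eq_sum_ones, Nat.cast_sum]
      apply sum_le_sum
      intro p hp
      simp only [mem_filter, mem_Ioc] at hp
      have hp0 : (0 : ℝ) < p := by exact_mod_cast hp.2.pos
      have hp1 : (p : ℝ) ≤ z := (Nat.le_floor_iff hz.le).mp hp.1.2
      rw [Nat.cast_one, mul_one_div, le_div_iff₀ hp0, one_mul]
      exact hp1
    have h11 := mul_le_mul_of_nonneg_left h4 hz.le
    linarith
  have h10 : 1 ≤ c / 4 * z := by
    rw [div_le_iff₀ hc] at h5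
    linarith
  have h11 : 0 < c * z := by positivity
  linarith

/-- removing the primes of `S` and `ps` -/
lemma removed (S : Finset ℕ) (ps M N : ℕ) (w : ℝ) (hw : 0 < w)
    (hM : ∀ p : ℕ, M < p → w ≤ (p : ℝ)) :
    ∑ p ∈ (Ioc M N).filter Nat.Prime, 1 / (p : ℝ) ≤
      ∑ p ∈ (Ioc M N).filter (fun p => p.Prime ∧ p ∉ S ∧ p ≠ ps), 1 / (p : ℝ) +
        ∑ q ∈ S, (1 : ℝ) / q + 1 / w := by
  classical
  have hsub : (Ioc M N).filter Nat.Prime ⊆
      ((Ioc M N).filter (fun p => p.Prime ∧ p ∉ S ∧ p ≠ ps) ∪ S) ∪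
        ({ps} : Finset ℕ).filter (fun p => M < p) := by
    intro p hp
    simp only [mem_filter, mem_Ioc, mem_union, mem_singleton] at hp ⊢
    by_cases h1 : p ∈ S
    · exact Or.inl (Or.inr h1)
    by_cases h2 : p = ps
    · exact Or.inr ⟨h2, hp.1.1⟩
    · exact Or.inl (Or.inl ⟨hp.1, hp.2, h1, h2⟩)
  have hnn : ∀ (A : Finset ℕ), 0 ≤ ∑ p ∈ A, 1 / (p : ℝ) :=
    fun A => sum_nonneg (fun p _ => by positivity)
  have hun : ∀ A A' : Finset ℕ, ∑ p ∈ A ∪ A', 1 / (p : ℝ) ≤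
      ∑ p ∈ A, 1 / (p : ℝ) + ∑ p ∈ A', 1 / (p : ℝ) := by
    intro A A'
    rw [← sum_union_inter]
    linarith [hnn (A ∩ A')]
  refine (sum_le_sum_of_subset_of_nonneg hsub (fun p _ _ => by positivity)).trans ?_
  refine (hun _ _).trans ?_
  refine add_le_add (hun _ _) ?_
  rw [sum_filter, sum_singleton]
  split_ifs with h
  · exact one_div_le_one_div_of_le hw (hM ps h)
  · positivity

/-- the eventual facts about the block, in the variable `L = log X` -/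
lemma block (e e' μ β ε : ℝ) (he' : 0 < e') (hee : e' < e) (he1 : e < 1) (hμ : 0 < μ)
    (hβ : 0 < β) (hε : 0 < ε) : ∀ᶠ L : ℝ in atTop,
    |∑ p ∈ (Ioc ⌊L ^ e'⌋₊ ⌊L ^ e⌋₊).filter Nat.Prime, 1 / (p : ℝ) - Real.log (e / e')| ≤ μ ∧
    6 / (Real.log L) ^ 2 ≤ μ ∧ 1 / L ^ e' ≤ μ ∧ ⌊L ^ e⌋₊ ≤ ⌊L / 1000⌋₊ ∧
    L ^ e * Real.log 4 ≤ ε * L ∧
    (((Ioc 0 ⌊L ^ e⌋₊).filter Nat.Prime).card : ℝ) + 1 ≤ β * L ^ e ∧ 1 < L := by
  have he : 0 < e := he'.trans hee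
  have h1 := R1_cell 1 1 e e' one_pos one_pos he he'
  have h1' : Tendsto (fun L : ℝ => R1 ⌊1 * L ^ e⌋₊ - R1 ⌊1 * L ^ e'⌋₊ - Real.log (e / e'))
      atTop (𝓝 0) := by
    have := h1.sub_const (Real.log (e / e'))
    rwa [sub_self] at this
  have h2 := h1'.abs
  rw [abs_zero] at h2
  have E1 := h2.eventually (eventually_le_nhds hμ)
  have E2 : ∀ᶠ L : ℝ in atTop, 6 / (Real.log L) ^ 2 ≤ μ := by
    have h3 : Tendsto (fun L : ℝ => 6 / (Real.log L) ^ 2) atTop (𝓝 0) :=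
      ((tendsto_pow_atTop two_ne_zero).comp Real.tendsto_log_atTop).const_div_atTop 6
    exact h3.eventually (eventually_le_nhds hμ)
  have E3 : ∀ᶠ L : ℝ in atTop, 1 / L ^ e' ≤ μ := by
    have h3 : Tendsto (fun L : ℝ => 1 / L ^ e') atTop (𝓝 0) :=
      (tendsto_rpow_atTop he').const_div_atTop 1
    exact h3.eventually (eventually_le_nhds hμ)
  have h4 : Tendsto (fun L : ℝ => L ^ (1 - e)) atTop atTop := tendsto_rpow_atTop (by linarith)
  have E4 : ∀ᶠ L : ℝ in atTop, 1000 ≤ L ^ (1 - e) := h4.eventually_ge_atTop _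
  have E5 : ∀ᶠ L : ℝ in atTop, Real.log 4 / ε ≤ L ^ (1 - e) := h4.eventually_ge_atTop _
  filter_upwards [E1, E2, E3, E4, E5, card_small e β he hβ, eventually_gt_atTop (1 : ℝ)] with
    L h5 h6 h7 h8 h9 h10 h11
  have hL : 0 < L := by linarith
  have hsplit : L = L ^ e * L ^ (1 - e) := by
    rw [← Real.rpow_add hL]
    norm_num
  have hz : 0 < L ^ e := Real.rpow_pos_of_pos hL _
  refine ⟨?_, h6, h7, ?_, ?_, h10, h11⟩
  · rw [one_mul, one_mul] at h5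
    rw [← R1_sub]
    · exact h5
    · apply Nat.floor_le_floor
      exact Real.rpow_le_rpow_of_exponent_le h11.le hee.le
  · apply Nat.floor_le_floor
    rw [le_div_iff₀ (by norm_num)]
    calc L ^ e * 1000 ≤ L ^ e * L ^ (1 - e) := mul_le_mul_of_nonneg_left h8 hz.le
      _ = L := hsplit.symm
  · rw [div_le_iff₀ hε] at h9
    calc L ^ e * Real.log 4 ≤ L ^ e * (L ^ (1 - e) * ε) := mul_le_mul_of_nonneg_left h9 hz.le
      _ = ε * (L ^ e * L ^ (1 - e)) := by ring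
      _ = ε * L := by rw [← hsplit]

lemma prod_le_primorial (P : Finset ℕ) (N : ℕ) (hP : ∀ p ∈ P, p.Prime ∧ p ≤ N) :
    ∏ p ∈ P, p ≤ 4 ^ N := by
  refine le_trans ?_ (primorial_le_four_pow N)
  rw [primorial]
  apply prod_le_prod_of_subset_of_one_le'
  · intro p hp
    rw [mem_filter, mem_range]
    exact ⟨by have := (hP p hp).2; omega, (hP p hp).1⟩
  · intro p hp _
    exact (mem_filter.mp hp).2.one_lt.le

end Pool.Agent.N610.MS.CNTaux

namespace Pool.Agent.N610.MS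

open Finset Filter Topology
open Pool.Agent.H378R2 (WW PW GoodS)
open CNTaux

theorem t_CNT (h1 : S_BON) (h2 : S_LEG) : S_CNT := by
  intro a η ha hη
  obtain ⟨k0, hk0⟩ := exists_nat_gt (max a (2 * a / η))
  have hk0a : a < k0 := (le_max_left _ _).trans_lt hk0
  have hk0b : 2 * a < k0 * η := by
    have := (le_max_right _ _).trans_lt hk0
    rwa [div_lt_iff₀ hη] at this
  have hk01 : 1 ≤ k0 := by
    have : (0 : ℝ) < k0 := ha.trans hk0a
    exact_mod_cast this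
  refine ⟨a / (4 * (k0 + 1)), by positivity, ?_⟩
  intro C σ hC hσ
  obtain ⟨k, hkl, hkr, hkσ⟩ : ∃ k : ℕ, k0 ≤ k ∧ k ≤ k0 + 1 ∧ σ = (-1) ^ k := by
    rcases Nat.even_or_odd k0 with h | h
    · rcases hσ with h' | h'
      · exact ⟨k0, le_rfl, by omega, by rw [h', h.neg_one_pow]⟩
      · exact ⟨k0 + 1, by omega, le_rfl, by rw [h', h.add_one.neg_one_pow]⟩
    · rcases hσ with h' | h'
      · exact ⟨k0 + 1, by omega, le_rfl, by rw [h', h.add_one.neg_one_pow]⟩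
      · exact ⟨k0, le_rfl, by omega, by rw [h', h.neg_one_pow]⟩
  have hk1 : 1 ≤ k := hk01.trans hkl
  have hkR : (1 : ℝ) ≤ k := by exact_mod_cast hk1
  have hkpos : (0 : ℝ) < k := by linarith
  have hklR : (k0 : ℝ) ≤ k := by exact_mod_cast hkl
  have hkrR : (k : ℝ) ≤ k0 + 1 := by exact_mod_cast hkr
  obtain ⟨s0, hs0, hs4, hsC, hsk⟩ : ∃ s0 : ℝ, 0 < s0 ∧ s0 ≤ 1 / 4 ∧ s0 ≤ 1 / (32 * C) ∧
      s0 ≤ 1 / (2 * (k + 1)) :=
    ⟨min (1 / 4) (min (1 / (32 * C)) (1 / (2 * (k + 1)))), by positivity, min_le_left _ _,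
      (min_le_right _ _).trans (min_le_left _ _), (min_le_right _ _).trans (min_le_right _ _)⟩
  obtain ⟨δ, hδ⟩ : ∃ δ : ℝ, δ = s0 ^ (k + 1) / (4 * (k + 1).factorial) := ⟨_, rfl⟩
  have hδpos : 0 < δ := by rw [hδ]; positivity
  have hδ1 : δ ≤ 1 := by
    rw [hδ, div_le_one (by positivity)]
    have h3 : s0 ^ (k + 1) ≤ 1 := pow_le_one₀ hs0.le (by linarith)
    have h4 : (1 : ℝ) ≤ (k + 1).factorial := by
      exact_mod_cast Nat.succ_le_of_lt (Nat.factorial_pos _)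
    linarith
  refine ⟨δ, hδpos, hδ1, ?_⟩
  intro ε hε
  -- exponents
  obtain ⟨E, hE⟩ : ∃ E : ℝ, E = Real.exp (-s0) := ⟨_, rfl⟩
  have hE1 : 1 - s0 ≤ E := by
    rw [hE]
    linarith [Real.add_one_le_exp (-s0)]
  have hE2 : E < 1 := by
    rw [hE, ← Real.exp_zero]
    exact Real.exp_lt_exp.mpr (by linarith)
  have hEpos : 0 < E := by rw [hE]; exact Real.exp_pos _
  obtain ⟨e, he⟩ : ∃ e : ℝ, e = a / k := ⟨_, rfl⟩
  have hepos : 0 < e := by rw [he]; positivity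
  have he1 : e < 1 := by
    rw [he, div_lt_one hkpos]
    linarith
  have he'pos : 0 < e * E := mul_pos hepos hEpos
  have hee : e * E < e := by nlinarith
  have hlog : Real.log (e / (e * E)) = s0 := by
    rw [div_mul_cancel_left₀ hepos.ne', hE, Real.log_inv, Real.log_exp, neg_neg]
  -- error sizes
  obtain ⟨β, hβ0, hβ1, hβ2, hβ3⟩ : ∃ β : ℝ, 0 < β ∧ β ≤ δ / 6 ∧ β ≤ δ / (4 * C) ∧ β ≤ 1 :=
    ⟨min (δ / 6) (min (δ / (4 * C)) 1), by positivity, min_le_left _ _,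
      (min_le_right _ _).trans (min_le_left _ _), (min_le_right _ _).trans (min_le_right _ _)⟩
  obtain ⟨μ, hμ0, hμ1, hμ2⟩ : ∃ μ : ℝ, 0 < μ ∧ μ ≤ s0 * (1 / (8 * ((k : ℝ) + 2))) / 3 ∧
      μ ≤ δ / 6 / ((k : ℝ) + 1) :=
    ⟨min (s0 * (1 / (8 * ((k : ℝ) + 2))) / 3) (δ / 6 / ((k : ℝ) + 1)), by positivity,
      min_le_left _ _, min_le_right _ _⟩
  have hev := block e (e * E) μ β ε he'pos hee he1 hμ0 hβ0 hε
  rw [hlog] at hev
  filter_upwards [Real.tendsto_log_atTop.eventually hev, eventually_gt_atTop (0 : ℝ)] with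
    X hX hX0 S ps hS
  obtain ⟨f1, f2, f3, f4, f5, f6, f7⟩ := hX
  set L := Real.log X with hL
  have hLpos : 0 < L := by linarith
  set M := ⌊L ^ (e * E)⌋₊ with hM
  set N := ⌊L ^ e⌋₊ with hN
  have hw : 0 < L ^ (e * E) := Real.rpow_pos_of_pos hLpos _
  have hz : 0 < L ^ e := Real.rpow_pos_of_pos hLpos _
  have hMlt : ∀ p : ℕ, M < p → L ^ (e * E) ≤ (p : ℝ) := by
    intro p hp
    exact ((Nat.floor_lt hw.le).mp hp).le
  obtain ⟨P, hPdef⟩ : ∃ P : Finset ℕ,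
      P = (Ioc M N).filter (fun p => p.Prime ∧ p ∉ S ∧ p ≠ ps) := ⟨_, rfl⟩
  have hPmem : ∀ p ∈ P, M < p ∧ p ≤ N ∧ p.Prime ∧ p ∉ S ∧ p ≠ ps := by
    intro p hp
    rw [hPdef, mem_filter, mem_Ioc] at hp
    exact ⟨hp.1.1, hp.1.2, hp.2.1, hp.2.2.1, hp.2.2.2⟩
  have hrem := removed S ps M N _ hw hMlt
  rw [← hPdef] at hrem
  have hsubfull : P ⊆ (Ioc M N).filter Nat.Prime := by
    intro p hp
    obtain ⟨g1, g2, g3, _, _⟩ := hPmem p hp
    rw [mem_filter, mem_Ioc]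
    exact ⟨⟨g1, g2⟩, g3⟩
  have hup : ∑ p ∈ P, 1 / (p : ℝ) ≤ ∑ p ∈ (Ioc M N).filter Nat.Prime, 1 / (p : ℝ) :=
    sum_le_sum_of_subset_of_nonneg hsubfull (fun p _ _ => by positivity)
  have hSsum : ∑ q ∈ S, (1 : ℝ) / q ≤ μ := hS.2.trans f2
  rw [abs_le] at f1
  have hlo : s0 * (1 - 1 / (8 * ((k : ℝ) + 2))) ≤ ∑ p ∈ P, 1 / (p : ℝ) := by
    linarith [f1.1]
  have hhi : ∑ p ∈ P, 1 / (p : ℝ) ≤ s0 * (1 + 1 / (8 * ((k : ℝ) + 2))) := by
    have h3 : 0 < s0 * (1 / (8 * ((k : ℝ) + 2))) := by positivity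
    linarith [f1.2]
  have hs1 : ∑ p ∈ P, 1 / (p : ℝ) ≤ 1 := by
    have h3 : 1 / (8 * ((k : ℝ) + 2)) ≤ 1 := by
      rw [div_le_one (by positivity)]
      linarith
    have h4 : s0 * (1 + 1 / (8 * ((k : ℝ) + 2))) ≤ 1 / 4 * (1 + 1) :=
      mul_le_mul hs4 (by linarith) (by positivity) (by norm_num)
    linarith
  have hQ : ((k : ℝ) + 1) * ∑ p ∈ P, (1 / (p : ℝ)) ^ 2 ≤ δ / 6 := by
    have h3 : ∑ p ∈ P, (1 / (p : ℝ)) ^ 2 ≤ μ := by
      calc ∑ p ∈ P, (1 / (p : ℝ)) ^ 2 ≤ ∑ p ∈ P, (1 / (p : ℝ)) * (1 / L ^ (e * E)) := by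
            apply sum_le_sum
            intro p hp
            rw [sq]
            apply mul_le_mul_of_nonneg_left _ (by positivity)
            exact one_div_le_one_div_of_le hw (hMlt p (hPmem p hp).1)
        _ = (∑ p ∈ P, 1 / (p : ℝ)) * (1 / L ^ (e * E)) := by rw [sum_mul]
        _ ≤ 1 * (1 / L ^ (e * E)) := mul_le_mul_of_nonneg_right hs1 (by positivity)
        _ ≤ μ := by rw [one_mul]; exact f3
    have h4 : ((k : ℝ) + 1) * (δ / 6 / ((k : ℝ) + 1)) = δ / 6 := by field_simp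
    calc ((k : ℝ) + 1) * ∑ p ∈ P, (1 / (p : ℝ)) ^ 2 ≤ ((k : ℝ) + 1) * (δ / 6 / ((k : ℝ) + 1)) :=
          mul_le_mul_of_nonneg_left (h3.trans hμ2) (by linarith)
      _ = δ / 6 := h4
  -- cardinality
  have hcard : (P.card : ℝ) + 1 ≤ β * L ^ e := by
    refine le_trans ?_ f6
    have h3 : P.card ≤ ((Ioc 0 N).filter Nat.Prime).card := by
      apply card_le_card
      intro p hp
      obtain ⟨g1, g2, g3, _, _⟩ := hPmem p hp
      rw [mem_filter, mem_Ioc]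
      exact ⟨⟨by omega, g2⟩, g3⟩
    have h4 : (P.card : ℝ) ≤ (((Ioc 0 N).filter Nat.Prime).card : ℝ) := by exact_mod_cast h3
    linarith
  have hek : (L ^ e) ^ k = L ^ a := by
    rw [← Real.rpow_natCast, ← Real.rpow_mul hLpos.le, he, div_mul_cancel₀ _ hkpos.ne']
  have hpowcard : ∀ j : ℕ, 1 ≤ j → ((P.card : ℝ) + 1) ^ j ≤ β * (L ^ e) ^ j := by
    intro j hj
    calc ((P.card : ℝ) + 1) ^ j ≤ (β * L ^ e) ^ j := pow_le_pow_left₀ (by positivity) hcard _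
      _ = β ^ j * (L ^ e) ^ j := mul_pow _ _ _
      _ ≤ β * (L ^ e) ^ j := by
          apply mul_le_mul_of_nonneg_right _ (by positivity)
          calc β ^ j ≤ β ^ 1 := pow_le_pow_of_le_one hβ0.le hβ3 hj
            _ = β := pow_one _
  have hca : ((P.card : ℝ) + 1) ^ k ≤ β * L ^ a := by
    rw [← hek]; exact hpowcard k hk1
  have hcc : ((P.card : ℝ) + 1) ^ (k + 1) ≤ β * L ^ (a + η) := by
    refine (hpowcard (k + 1) (by omega)).trans ?_
    apply mul_le_mul_of_nonneg_left _ hβ0.le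
    rw [pow_succ, hek, ← Real.rpow_add hLpos]
    apply Real.rpow_le_rpow_of_exponent_le f7.le
    have h3 : e ≤ η := by
      rw [he, div_le_iff₀ hkpos]
      have h4 := mul_le_mul_of_nonneg_right hklR hη.le
      linarith
    linarith
  have hac : L ^ a ≤ L ^ (a + η) := Real.rpow_le_rpow_of_exponent_le f7.le (by linarith)
  have hT : ∀ T ∈ P.powersetCard (k + 1), L ^ (a + a / (4 * (k0 + 1))) < ∏ p ∈ T, (p : ℝ) := by
    intro T hT
    obtain ⟨hT1, hT2⟩ := mem_powersetCard.mp hT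
    have h3 : (L ^ (e * E)) ^ (k + 1) ≤ ∏ p ∈ T, (p : ℝ) := by
      rw [← hT2, ← prod_const]
      apply prod_le_prod (fun _ _ => hw.le)
      intro p hp
      exact hMlt p (hPmem p (hT1 hp)).1
    refine lt_of_lt_of_le ?_ h3
    rw [← Real.rpow_natCast, ← Real.rpow_mul hLpos.le]
    apply Real.rpow_lt_rpow_of_exponent_lt f7
    -- a + κ < e E (k+1)
    have h4 : ((k : ℝ) + 1) * E ≥ k + 1 / 2 := by
      have h5 : ((k : ℝ) + 1) * s0 ≤ 1 / 2 := by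
        have h6 := mul_le_mul_of_nonneg_left hsk (by linarith : (0 : ℝ) ≤ (k : ℝ) + 1)
        have h7 : ((k : ℝ) + 1) * (1 / (2 * (k + 1))) = 1 / 2 := by field_simp
        linarith
      have h6 := mul_le_mul_of_nonneg_left hE1 (by linarith : (0 : ℝ) ≤ (k : ℝ) + 1)
      linarith
    have h5 : e * E * ((k + 1 : ℕ) : ℝ) ≥ e * (k + 1 / 2) := by
      push_cast
      have := mul_le_mul_of_nonneg_left h4 hepos.le
      linarith
    have h6 : e * k = a := by rw [he, div_mul_cancel₀ _ hkpos.ne']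
    have h7 : a / (4 * (k0 + 1)) < e * (1 / 2) := by
      rw [div_lt_iff₀ (by positivity)]
      have h8 : e * ((k0 : ℝ) + 1) ≥ e * k := mul_le_mul_of_nonneg_left hkrR hepos.le
      linarith
    linarith
  obtain ⟨c1, c2, c3, c4⟩ := core h1 h2 P (fun p hp => (hPmem p hp).2.2.1) k hk1 σ s0 C β δ
    (L ^ a) (L ^ (a + a / (4 * (k0 + 1)))) (L ^ (a + η)) hkσ hs0 hs4 hC hsC hδ hlo hhi hQ
    hβ0.le hβ1 hβ2 (Real.rpow_pos_of_pos hLpos _) hca hac hcc hT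
  refine ⟨P, ?_, ?_, c1, c2, c3, c4⟩
  · intro p hp
    obtain ⟨g1, g2, g3, g4, g5⟩ := hPmem p hp
    rw [PW, mem_filter, mem_Icc]
    exact ⟨⟨g3.one_lt.le, g2.trans f4⟩, g3, g4, g5⟩
  · have h3 := prod_le_primorial P N (fun p hp => ⟨(hPmem p hp).2.2.1, (hPmem p hp).2.1⟩)
    calc ((∏ p ∈ P, p : ℕ) : ℝ) ≤ ((4 ^ N : ℕ) : ℝ) := by exact_mod_cast h3
      _ = (4 : ℝ) ^ (N : ℝ) := by push_cast; rw [Real.rpow_natCast]
      _ ≤ (4 : ℝ) ^ (L ^ e) :=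
          Real.rpow_le_rpow_of_exponent_le (by norm_num) (Nat.floor_le hz.le)
      _ = Real.exp (Real.log 4 * L ^ e) := by rw [Real.rpow_def_of_pos (by norm_num)]
      _ ≤ Real.exp (L * ε) := by
          apply Real.exp_le_exp.mpr
          linarith
      _ = X ^ ε := by rw [Real.rpow_def_of_pos hX0]

end Pool.Agent.N610.MS
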