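import Pool.Agent.N610.MS.Stm

set_option autoImplicit false

/-!
# Part LEG: the sieve of Eratosthenes-Legendre, cut at the degree `k`
-/

namespace Pool.Agent.N610.MS.LEG

open Finset
open Pool.Agent.N610.MS

theorem sum_choose_le (n k : ℕ) : ∑ j ∈ range (k + 1), n.choose j ≤ (n + 1) ^ k := by
  induction k with
  | zero => simp
  | succ k ih =>
    rw [sum_range_succ]
    have h1 : n.choose (k + 1) ≤ n * (n + 1) ^ k := by
      calc n.choose (k + 1) ≤ n ^ (k + 1) := Nat.choose_le_pow n (k + 1)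
        _ = n * n ^ k := by ring
        _ ≤ n * (n + 1) ^ k := Nat.mul_le_mul_left _ (Nat.pow_le_pow_left (by omega) k)
    calc ∑ j ∈ range (k + 1), n.choose j + n.choose (k + 1) ≤ (n + 1) ^ k + n * (n + 1) ^ k := by
          gcongr
      _ = (n + 1) ^ (k + 1) := by ring

/-- the indicator function of the divisors -/
noncomputable def ind (h p : ℕ) : ℝ := if p ∣ h then 1 else 0

theorem prod_ind {T : Finset ℕ} (hT : ∀ p ∈ T, p.Prime) (h : ℕ) :
    ∏ p ∈ T, ind h p = if (∏ p ∈ T, p) ∣ h then 1 else 0 := by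
  unfold ind
  rw [Finset.prod_ite_zero]
  have h1 : (∀ i ∈ T, i ∣ h) ↔ (∏ p ∈ T, p) ∣ h :=
    ⟨fun h2 => Finset.prod_primes_dvd h (fun p hp => (hT p hp).prime) h2,
      fun h2 i hi => (Finset.dvd_prod_of_mem _ hi).trans h2⟩
  simp only [h1, prod_const_one]

theorem sum_ind {T : Finset ℕ} (hT : ∀ p ∈ T, p.Prime) (Y : ℕ) :
    ∑ h ∈ Icc 1 Y, ∏ p ∈ T, ind h p = ((Y / ∏ p ∈ T, p : ℕ) : ℝ) := by
  simp only [prod_ind hT]
  rw [Finset.sum_boole, ← Nat.Ioc_filter_dvd_card_eq_div]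
  congr 1

theorem prod_one_sub (P : Finset ℕ) (h : ℕ) :
    ∏ p ∈ P, (1 - ind h p) = if (∀ p ∈ P, ¬ p ∣ h) then 1 else 0 := by
  have h1 : ∀ p ∈ P, 1 - ind h p = if ¬ p ∣ h then 1 else 0 := by
    intro p _
    unfold ind
    by_cases h2 : p ∣ h <;> simp [h2]
  rw [Finset.prod_congr rfl h1, Finset.prod_ite_zero]
  simp

theorem sum_V (P : Finset ℕ) (Y : ℕ) : ∑ h ∈ Icc 1 Y, ∏ p ∈ P, (1 - ind h p) = (V P Y : ℝ) := by
  simp only [prod_one_sub]
  rw [Finset.sum_boole]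
  rfl

theorem main (h : S_BON) : S_LEG := by
  intro P hP k y hy
  set Y := ⌊y⌋₊ with hY
  have hsub : ∀ j, ∀ T ∈ P.powersetCard j, ∀ p ∈ T, p.Prime := fun j T hT p hp =>
    hP p ((mem_powersetCard.1 hT).1 hp)
  -- sums of the elementary symmetric functions
  have hE : ∀ j, ∑ h ∈ Icc 1 Y, e P (ind h) j =
      ∑ T ∈ P.powersetCard j, ((Y / ∏ p ∈ T, p : ℕ) : ℝ) := by
    intro j
    unfold e
    rw [Finset.sum_comm]
    exact Finset.sum_congr rfl fun T hT => sum_ind (hsub j T hT) Y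
  have hA : ∑ h ∈ Icc 1 Y, alt P (ind h) k =
      ∑ j ∈ range (k + 1), (-1) ^ j * ∑ T ∈ P.powersetCard j, ((Y / ∏ p ∈ T, p : ℕ) : ℝ) := by
    unfold alt
    rw [Finset.sum_comm]
    refine Finset.sum_congr rfl fun j _ => ?_
    rw [← hE j, Finset.mul_sum]
  have hbon : ∀ n : ℕ, 0 ≤ (-1 : ℝ) ^ k * (alt P (ind n) k - ∏ p ∈ P, (1 - ind n p)) ∧
      (-1 : ℝ) ^ k * (alt P (ind n) k - ∏ p ∈ P, (1 - ind n p)) ≤ e P (ind n) (k + 1) := fun n =>
    (h P (ind n) (fun p _ => by unfold ind; split_ifs <;> norm_num)).1 k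
  have h1 : 0 ≤ (-1 : ℝ) ^ k * (∑ h ∈ Icc 1 Y, alt P (ind h) k - V P Y) := by
    rw [← sum_V, ← Finset.sum_sub_distrib, Finset.mul_sum]
    exact Finset.sum_nonneg fun n _ => (hbon n).1
  have h2 : (-1 : ℝ) ^ k * (∑ h ∈ Icc 1 Y, alt P (ind h) k - V P Y) ≤
      ∑ T ∈ P.powersetCard (k + 1), ((Y / ∏ p ∈ T, p : ℕ) : ℝ) := by
    rw [← hE, ← sum_V, ← Finset.sum_sub_distrib, Finset.mul_sum]
    exact Finset.sum_le_sum fun n _ => (hbon n).2
  have h3 : |(V P Y : ℝ) - ∑ h ∈ Icc 1 Y, alt P (ind h) k| ≤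
      ∑ T ∈ P.powersetCard (k + 1), ((Y / ∏ p ∈ T, p : ℕ) : ℝ) := by
    rw [abs_sub_comm]
    have h4 : |∑ h ∈ Icc 1 Y, alt P (ind h) k - (V P Y : ℝ)| =
        |(-1 : ℝ) ^ k * (∑ h ∈ Icc 1 Y, alt P (ind h) k - V P Y)| := by
      rw [abs_mul, abs_pow, abs_neg, abs_one, one_pow, one_mul]
    rw [h4, abs_of_nonneg h1]
    exact h2
  -- the floors
  have hpos : ∀ j, ∀ T ∈ P.powersetCard j, (0 : ℝ) < ∏ p ∈ T, (p : ℝ) := fun j T hT =>
    Finset.prod_pos fun p hp => by exact_mod_cast (hsub j T hT p hp).pos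
  have hinv : ∀ T : Finset ℕ, ∏ p ∈ T, (1 / (p : ℝ)) = 1 / ∏ p ∈ T, (p : ℝ) := by
    intro T
    rw [Finset.prod_div_distrib, Finset.prod_const_one]
  have hfl : ∀ j, ∀ T ∈ P.powersetCard j,
      ((Y / ∏ p ∈ T, p : ℕ) : ℝ) = (⌊y / ∏ p ∈ T, (p : ℝ)⌋₊ : ℝ) := by
    intro j T _
    rw [hY, ← Nat.floor_div_natCast]
    push_cast
    rfl
  have h5 : |∑ h ∈ Icc 1 Y, alt P (ind h) k - y * alt P (fun p => 1 / (p : ℝ)) k| ≤
      ((P.card : ℝ) + 1) ^ k := by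
    rw [hA]
    unfold alt e
    rw [Finset.mul_sum, ← Finset.sum_sub_distrib]
    calc |∑ j ∈ range (k + 1), ((-1 : ℝ) ^ j * ∑ T ∈ P.powersetCard j, ((Y / ∏ p ∈ T, p : ℕ) : ℝ) -
            y * ((-1) ^ j * ∑ T ∈ P.powersetCard j, ∏ p ∈ T, (1 / (p : ℝ))))| ≤
          ∑ j ∈ range (k + 1), |(-1 : ℝ) ^ j * ∑ T ∈ P.powersetCard j, ((Y / ∏ p ∈ T, p : ℕ) : ℝ) -
            y * ((-1) ^ j * ∑ T ∈ P.powersetCard j, ∏ p ∈ T, (1 / (p : ℝ)))| :=
          Finset.abs_sum_le_sum_abs _ _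
      _ ≤ ∑ j ∈ range (k + 1), ((P.card.choose j : ℕ) : ℝ) := by
          refine Finset.sum_le_sum fun j _ => ?_
          have h6 : (-1 : ℝ) ^ j * ∑ T ∈ P.powersetCard j, ((Y / ∏ p ∈ T, p : ℕ) : ℝ) -
              y * ((-1) ^ j * ∑ T ∈ P.powersetCard j, ∏ p ∈ T, (1 / (p : ℝ))) =
              (-1 : ℝ) ^ j * ∑ T ∈ P.powersetCard j, (((Y / ∏ p ∈ T, p : ℕ) : ℝ) -
                y * ∏ p ∈ T, (1 / (p : ℝ))) := by
            rw [Finset.sum_sub_distrib, ← Finset.mul_sum]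
            ring
          rw [h6, abs_mul, abs_pow, abs_neg, abs_one, one_pow, one_mul]
          calc |∑ T ∈ P.powersetCard j, (((Y / ∏ p ∈ T, p : ℕ) : ℝ) -
                  y * ∏ p ∈ T, (1 / (p : ℝ)))| ≤
                ∑ T ∈ P.powersetCard j, |((Y / ∏ p ∈ T, p : ℕ) : ℝ) -
                  y * ∏ p ∈ T, (1 / (p : ℝ))| := Finset.abs_sum_le_sum_abs _ _
            _ ≤ ∑ T ∈ P.powersetCard j, (1 : ℝ) := by
                refine Finset.sum_le_sum fun T hT => ?_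
                rw [hfl j T hT, hinv, mul_one_div]
                have h7 : 0 ≤ y / ∏ p ∈ T, (p : ℝ) := div_nonneg hy (hpos j T hT).le
                have h8 := Nat.floor_le h7
                have h9 := Nat.lt_floor_add_one (y / ∏ p ∈ T, (p : ℝ))
                rw [abs_le]
                constructor <;> linarith
            _ = ((P.card.choose j : ℕ) : ℝ) := by
                rw [Finset.sum_const, Finset.card_powersetCard, nsmul_eq_mul, mul_one]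
      _ = ((∑ j ∈ range (k + 1), P.card.choose j : ℕ) : ℝ) := by push_cast; rfl
      _ ≤ (((P.card + 1) ^ k : ℕ) : ℝ) := by exact_mod_cast sum_choose_le P.card k
      _ = ((P.card : ℝ) + 1) ^ k := by push_cast; rfl
  have h6 : |(V P Y : ℝ) - y * alt P (fun p => 1 / (p : ℝ)) k| ≤
      ∑ T ∈ P.powersetCard (k + 1), ((Y / ∏ p ∈ T, p : ℕ) : ℝ) + ((P.card : ℝ) + 1) ^ k :=
    (abs_sub_le _ (∑ h ∈ Icc 1 Y, alt P (ind h) k) _).trans (add_le_add h3 h5)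
  constructor
  · refine h6.trans ?_
    gcongr
    unfold e
    rw [Finset.mul_sum]
    refine Finset.sum_le_sum fun T hT => ?_
    rw [hfl _ T hT, hinv, mul_one_div]
    exact Nat.floor_le (div_nonneg hy (hpos _ T hT).le)
  · intro hlt
    have h7 : ∑ T ∈ P.powersetCard (k + 1), ((Y / ∏ p ∈ T, p : ℕ) : ℝ) = 0 := by
      refine Finset.sum_eq_zero fun T hT => ?_
      rw [hfl _ T hT, Nat.cast_eq_zero, Nat.floor_eq_zero, div_lt_one (hpos _ T hT)]
      exact hlt T hT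
    rw [h7, zero_add] at h6
    exact h6

end Pool.Agent.N610.MS.LEG

theorem Pool.Agent.N610.MS.t_LEG (h : Pool.Agent.N610.MS.S_BON) : Pool.Agent.N610.MS.S_LEG :=
  Pool.Agent.N610.MS.LEG.main h
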