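import Mathlib
import Pool.Agent.H378R2.Defs

set_option autoImplicit false

/-!
# Separation of scales in Maier's theorem: statements (project MS, helper610)
-/

namespace Pool.Agent.N610.MS

open Finset Filter
open Pool.Agent.H378R2 (WW PW GoodS)

/-- elementary symmetric function of degree `j` of the `x p`, `p ∈ P` -/
def e {ι : Type} [DecidableEq ι] (P : Finset ι) (x : ι → ℝ) (j : ℕ) : ℝ :=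
  ∑ T ∈ P.powersetCard j, ∏ p ∈ T, x p

/-- the alternating sum of the first elementary symmetric functions -/
def alt {ι : Type} [DecidableEq ι] (P : Finset ι) (x : ι → ℝ) (k : ℕ) : ℝ :=
  ∑ j ∈ range (k + 1), (-1) ^ j * e P x j

/-- Bonferroni inequalities, estimates for the elementary symmetric functions -/
def S_BON : Prop := ∀ (P : Finset ℕ) (x : ℕ → ℝ), (∀ p ∈ P, 0 ≤ x p ∧ x p ≤ 1) →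
  (∀ k : ℕ, 0 ≤ (-1) ^ k * (alt P x k - ∏ p ∈ P, (1 - x p)) ∧
    (-1) ^ k * (alt P x k - ∏ p ∈ P, (1 - x p)) ≤ e P x (k + 1)) ∧
  (∀ j : ℕ, e P x j ≤ (∑ p ∈ P, x p) ^ j / j.factorial) ∧
  (∑ p ∈ P, x p ≤ 1 → ∀ j : ℕ, (∑ p ∈ P, x p) ^ j / j.factorial - j * ∑ p ∈ P, x p ^ 2 ≤ e P x j)

/-- number of the `1 ≤ h ≤ Y` divisible by no `p ∈ P` -/
def V (P : Finset ℕ) (Y : ℕ) : ℕ := ((Icc 1 Y).filter (fun h => ∀ p ∈ P, ¬ p ∣ h)).card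

/-- the sieve of Eratosthenes-Legendre, cut at the degree `k` -/
def S_LEG : Prop := ∀ (P : Finset ℕ), (∀ p ∈ P, p.Prime) → ∀ (k : ℕ) (y : ℝ), 0 ≤ y →
  |(V P ⌊y⌋₊ : ℝ) - y * alt P (fun p => 1 / (p : ℝ)) k| ≤
    y * e P (fun p => 1 / (p : ℝ)) (k + 1) + ((P.card : ℝ) + 1) ^ k ∧
  ((∀ T ∈ P.powersetCard (k + 1), y < ∏ p ∈ T, (p : ℝ)) →
    |(V P ⌊y⌋₊ : ℝ) - y * alt P (fun p => 1 / (p : ℝ)) k| ≤ ((P.card : ℝ) + 1) ^ k)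

/-- relative density of the integers `h ≤ y` divisible by no `p ∈ P` -/
noncomputable def rel (P : Finset ℕ) (y : ℝ) : ℝ := (V P ⌊y⌋₊ : ℝ) / (y * ∏ p ∈ P, (1 - 1 / (p : ℝ)))

/-- the choice of the primes of the modulus -/
def S_CNT : Prop := ∀ a η : ℝ, 0 < a → 0 < η → ∃ κ : ℝ, 0 < κ ∧
  ∀ (C σ : ℝ), 0 < C → (σ = 1 ∨ σ = -1) → ∃ δ : ℝ, 0 < δ ∧ δ ≤ 1 ∧ ∀ ε : ℝ, 0 < ε →
    ∀ᶠ X : ℝ in atTop, ∀ (S : Finset ℕ) (ps : ℕ), GoodS X S →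
      ∃ P : Finset ℕ, P ⊆ PW X S ps ∧ ((∏ p ∈ P, p : ℕ) : ℝ) ≤ X ^ ε ∧
        1 / 2 ≤ ∏ p ∈ P, (1 - 1 / (p : ℝ)) ∧
        (∀ y : ℝ, Real.log X ^ a ≤ y → y ≤ Real.log X ^ (a + κ) → 2 * δ ≤ σ * (rel P y - 1)) ∧
        (∀ y : ℝ, Real.log X ^ a ≤ y → -(δ / C) ≤ σ * (rel P y - 1)) ∧
        (∀ y : ℝ, Real.log X ^ (a + η) ≤ y → |rel P y - 1| ≤ δ / C)

/-- `∑ log p` over the primes of `(n, n + Y]` -/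
noncomputable def lp (n Y : ℕ) : ℝ := ∑ m ∈ Ioc n (n + Y), if m.Prime then Real.log m else 0

/-- rows of the Maier matrix -/
def S_ROWS : Prop := ∀ (A : ℕ) (ε : ℝ), 0 < ε → ∀ᶠ X : ℝ in atTop,
  ∃ (ps : ℕ) (S : Finset ℕ), GoodS X S ∧ ∀ P : Finset ℕ, P ⊆ PW X S ps →
    1 / 2 ≤ ∏ p ∈ P, (1 - 1 / (p : ℝ)) →
      ∃ (w : ℕ → ℝ) (ρ : ℝ), |ρ - 1| ≤ ε ∧
        (∀ n, 0 ≤ w n ∧ w n ≤ 20 * ((∏ p ∈ P, p : ℕ) : ℝ) / X) ∧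
        (∀ n, w n ≠ 0 → X < n ∧ (n : ℝ) < 3 * X ∧ (∏ p ∈ P, p) ∣ n) ∧
        ∑ n ∈ Icc 1 ⌊3 * X⌋₊, w n = 1 ∧
        ∀ Y : ℕ, (Y : ℝ) ≤ X ^ (9 / 10 : ℝ) →
          |∑ n ∈ Icc 1 ⌊3 * X⌋₊, w n * lp n Y - ρ * (V P Y / ∏ p ∈ P, (1 - 1 / (p : ℝ)))| ≤
            Y / Real.log X ^ A

/-- `R(x, y) = (π(x + y) - π(x)) / (y / log x)` -/
noncomputable def R (x y : ℝ) : ℝ :=
  ((Nat.primeCounting ⌊x + y⌋₊ : ℝ) - Nat.primeCounting ⌊x⌋₊) / (y / Real.log x)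

/-- **the main statement**: irregularities of the primes at one scale, which are not caused by
irregularities at larger scales -/
def S_MAIN : Prop := ∀ a η : ℝ, 0 < a → 0 < η → ∃ κ : ℝ, 0 < κ ∧
  ∀ (C σ : ℝ), 0 < C → (σ = 1 ∨ σ = -1) → ∃ δ : ℝ, 0 < δ ∧ ∀ ε : ℝ, 0 < ε →
    ∀ᶠ X : ℝ in atTop, ∃ (W : ℕ) (w : ℕ → ℝ), 0 < W ∧ (W : ℝ) ≤ X ^ ε ∧
      (∀ n, 0 ≤ w n ∧ w n ≤ 20 * W / X) ∧
      (∀ n, w n ≠ 0 → X < n ∧ (n : ℝ) < 3 * X ∧ W ∣ n) ∧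
      ∑ n ∈ Icc 1 ⌊3 * X⌋₊, w n = 1 ∧
      (∀ y : ℝ, Real.log X ^ a ≤ y → y ≤ Real.log X ^ (a + κ) →
        δ ≤ σ * (∑ n ∈ Icc 1 ⌊3 * X⌋₊, w n * R n y - 1)) ∧
      (∀ y : ℝ, Real.log X ^ a ≤ y → y ≤ X ^ (9 / 10 : ℝ) →
        -(δ / C) ≤ σ * (∑ n ∈ Icc 1 ⌊3 * X⌋₊, w n * R n y - 1)) ∧
      (∀ y : ℝ, Real.log X ^ (a + η) ≤ y → y ≤ X ^ (9 / 10 : ℝ) →
        |∑ n ∈ Icc 1 ⌊3 * X⌋₊, w n * R n y - 1| ≤ δ / C)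

/-- linear combinations and integrals over the scales -/
def S_LIN : Prop := ∀ (μ : MeasureTheory.Measure ℝ), MeasureTheory.IsFiniteMeasure μ →
  ∀ (f : ℝ → ℝ) (B a η A : ℝ), Measurable f → (∀ t, |f t| ≤ B) → 0 < a → 0 < η →
    μ (Set.Iio a) = 0 → μ (Set.Ioi A) = 0 →
    (∀ t, a ≤ t → t ≤ a + η → 0 ≤ f t) → (∀ κ : ℝ, 0 < κ → 0 < ∫ t in Set.Icc a (a + κ), f t ∂μ) →
    ∃ δ : ℝ, 0 < δ ∧ ∀ᶠ X : ℝ in atTop,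
      (∃ n : ℕ, X < n ∧ (n : ℝ) < 3 * X ∧
        (∫ t, f t ∂μ) + δ ≤ ∫ t, f t * R n (Real.log n ^ t) ∂μ) ∧
      (∃ n : ℕ, X < n ∧ (n : ℝ) < 3 * X ∧
        ∫ t, f t * R n (Real.log n ^ t) ∂μ ≤ (∫ t, f t ∂μ) - δ)

end Pool.Agent.N610.MS
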