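import Mathlib
import Pool.Agent.N610.MS.Stm

set_option autoImplicit false

/-!
# Separation of scales in Maier's theorem: integrals over the scales (part LIN, helper595)
-/

namespace Pool.Agent.N610.MS.LIN

open Finset Filter Topology MeasureTheory
open Pool.Agent.N610.MS

/-- comparison of the relative densities at nearby scales -/
theorem R_cmp {n : ℕ} (hn : 1 < n) {θ y y' : ℝ} (hθ : 0 ≤ θ) (hy : 0 < y) (hyy : y ≤ y')
    (h : θ * y' ≤ y) : θ * R n y ≤ R n y' := by
  unfold R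
  have hl : 0 < Real.log n := Real.log_pos (by exact_mod_cast hn)
  have hy' : 0 < y' := lt_of_lt_of_le hy hyy
  rw [Nat.floor_natCast]
  have hc0 : (Nat.primeCounting n : ℝ) ≤ Nat.primeCounting ⌊(n : ℝ) + y⌋₊ := by
    have h1 : n ≤ ⌊(n : ℝ) + y⌋₊ := Nat.le_floor (by linarith)
    exact_mod_cast Nat.monotone_primeCounting h1
  have hc1 : (Nat.primeCounting ⌊(n : ℝ) + y⌋₊ : ℝ) ≤ Nat.primeCounting ⌊(n : ℝ) + y'⌋₊ := by
    have h1 : ⌊(n : ℝ) + y⌋₊ ≤ ⌊(n : ℝ) + y'⌋₊ := Nat.floor_mono (by linarith)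
    exact_mod_cast Nat.monotone_primeCounting h1
  set c := (Nat.primeCounting ⌊(n : ℝ) + y⌋₊ : ℝ) - Nat.primeCounting n with hc
  set c' := (Nat.primeCounting ⌊(n : ℝ) + y'⌋₊ : ℝ) - Nat.primeCounting n with hc'
  have h0 : 0 ≤ c := by rw [hc]; linarith
  have h1 : c ≤ c' := by rw [hc, hc']; linarith
  rw [← mul_div_assoc, div_le_div_iff₀ (by positivity) (by positivity)]
  have h2 : θ * c * (y' / Real.log n) = (θ * y') * (c / Real.log n) := by ring
  have h3 : c' * (y / Real.log n) = y * (c' / Real.log n) := by ring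
  rw [h2, h3]
  apply mul_le_mul h _ (by positivity) hy.le
  exact div_le_div_of_nonneg_right h1 hl.le

theorem R_nonneg {n : ℕ} (hn : 1 < n) {y : ℝ} (hy : 0 < y) : 0 ≤ R n y := by
  have := R_cmp hn (θ := 0) (y := y) (y' := y) le_rfl hy le_rfl (by linarith)
  linarith

theorem meas_R (n : ℕ) (hn : 1 < n) : Measurable (fun t : ℝ => R n (Real.log n ^ t)) := by
  unfold R
  have hl : 0 < Real.log n := Real.log_pos (by exact_mod_cast hn)
  have h1 : Continuous (fun t : ℝ => Real.log n ^ t) :=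
    Real.continuous_const_rpow hl.ne'
  have h2 : Measurable (fun y : ℝ => (Nat.primeCounting ⌊(n : ℝ) + y⌋₊ : ℝ)) := by
    have h3 : Monotone (fun y : ℝ => (Nat.primeCounting ⌊(n : ℝ) + y⌋₊ : ℝ)) := by
      intro x y hxy
      have h4 : ⌊(n : ℝ) + x⌋₊ ≤ ⌊(n : ℝ) + y⌋₊ := Nat.floor_mono (by linarith)
      simp only
      exact_mod_cast Nat.monotone_primeCounting h4
    exact h3.measurable
  exact ((h2.comp h1.measurable).sub measurable_const).div (h1.measurable.div_const _)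

theorem bdd_R (n : ℕ) (hn : 1 < n) (hl1 : 1 ≤ Real.log n) {a A : ℝ} (t : ℝ) (h1 : a ≤ t) (h2 : t ≤ A) :
    ‖R n (Real.log n ^ t)‖ ≤
      (Nat.primeCounting ⌊(n : ℝ) + Real.log n ^ A⌋₊ : ℝ) / (Real.log n ^ a / Real.log n) := by
  have hl : 0 < Real.log n := by linarith
  rw [Real.norm_of_nonneg (R_nonneg hn (by positivity))]
  unfold R
  apply div_le_div₀ (by positivity)
  · have h3 : ⌊(n : ℝ) + Real.log n ^ t⌋₊ ≤ ⌊(n : ℝ) + Real.log n ^ A⌋₊ := by
      apply Nat.floor_mono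
      have := Real.rpow_le_rpow_of_exponent_le hl1 h2
      linarith
    have h4 : (Nat.primeCounting ⌊(n : ℝ) + Real.log n ^ t⌋₊ : ℝ) ≤
        Nat.primeCounting ⌊(n : ℝ) + Real.log n ^ A⌋₊ := by
      exact_mod_cast Nat.monotone_primeCounting h3
    have h5 : (0 : ℝ) ≤ Nat.primeCounting ⌊(n : ℝ)⌋₊ := by positivity
    linarith
  · positivity
  · apply div_le_div_of_nonneg_right _ hl.le
    exact Real.rpow_le_rpow_of_exponent_le hl1 h1

theorem tend_quot : Tendsto (fun X : ℝ => Real.log X / Real.log (3 * X)) atTop (𝓝 1) := by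
  have h1 : Tendsto (fun X : ℝ => 1 - Real.log 3 / Real.log (3 * X)) atTop (𝓝 (1 - 0)) := by
    apply Tendsto.sub tendsto_const_nhds
    apply Tendsto.div_atTop tendsto_const_nhds
    exact Real.tendsto_log_atTop.comp (tendsto_id.const_mul_atTop (by norm_num))
  rw [sub_zero] at h1
  refine h1.congr' ?_
  filter_upwards [eventually_gt_atTop 1] with X hX
  have h2 : Real.log (3 * X) = Real.log 3 + Real.log X :=
    Real.log_mul (by norm_num) (by linarith)
  have h3 : 0 < Real.log (3 * X) := Real.log_pos (by linarith)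
  rw [eq_div_iff h3.ne', sub_mul, div_mul_cancel₀ _ h3.ne', h2]
  ring

theorem ev_facts (a κ' A e0 : ℝ) (hκ' : 0 < κ') (ha : 0 < a) (he0 : 0 < e0) : ∀ᶠ X : ℝ in atTop,
    3 ≤ X ∧ 1 ≤ Real.log X ∧ Real.log (3 * X) ≤ 2 * Real.log X ∧
    Real.log (3 * X) ^ (a + κ') ≤ Real.log X ^ (a + 2 * κ') ∧
    Real.log (3 * X) ^ |A| ≤ X ^ (9 / 10 : ℝ) ∧
    1 ≤ (1 + e0) * (Real.log X / Real.log (3 * X)) ^ |A| := by
  have h1 : ∀ᶠ X : ℝ in atTop, 3 ≤ X := eventually_ge_atTop 3
  have h2 : ∀ᶠ X : ℝ in atTop, 1 ≤ Real.log X := Real.tendsto_log_atTop.eventually_ge_atTop 1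
  have h3 : ∀ᶠ X : ℝ in atTop, (2 : ℝ) ^ (a + κ') ≤ Real.log X ^ κ' :=
    ((tendsto_rpow_atTop hκ').comp Real.tendsto_log_atTop).eventually_ge_atTop _
  have h4 : ∀ᶠ X : ℝ in atTop, (2 : ℝ) ^ |A| * Real.log X ^ |A| ≤ X ^ (9 / 10 : ℝ) := by
    have h5 := (isLittleO_log_rpow_rpow_atTop (s := (9 / 10 : ℝ)) |A| (by norm_num)).bound
      (show (0 : ℝ) < ((2 : ℝ) ^ |A|)⁻¹ by positivity)
    filter_upwards [h5, h1, h2] with X h6 h7 h8
    rw [Real.norm_of_nonneg (by positivity), Real.norm_of_nonneg (by positivity)] at h6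
    have h9 : (0 : ℝ) < (2 : ℝ) ^ |A| := by positivity
    calc (2 : ℝ) ^ |A| * Real.log X ^ |A| ≤ (2 : ℝ) ^ |A| * (((2 : ℝ) ^ |A|)⁻¹ * X ^ (9 / 10 : ℝ)) :=
          mul_le_mul_of_nonneg_left h6 h9.le
      _ = X ^ (9 / 10 : ℝ) := by rw [← mul_assoc, mul_inv_cancel₀ h9.ne', one_mul]
  have h5 : ∀ᶠ X : ℝ in atTop, 1 < (1 + e0) * (Real.log X / Real.log (3 * X)) ^ |A| := by
    have h6 : Tendsto (fun X : ℝ => (1 + e0) * (Real.log X / Real.log (3 * X)) ^ |A|) atTop
        (𝓝 ((1 + e0) * 1 ^ |A|)) :=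
      (tend_quot.rpow_const (Or.inl one_ne_zero)).const_mul _
    rw [Real.one_rpow, mul_one] at h6
    exact h6.eventually_const_lt (by linarith)
  filter_upwards [h1, h2, h3, h4, h5] with X g1 g2 g3 g4 g5
  have hX : (0 : ℝ) < X := by linarith
  have g6 : Real.log (3 * X) ≤ 2 * Real.log X := by
    rw [Real.log_mul (by norm_num) hX.ne']
    have := Real.log_le_log (by norm_num : (0 : ℝ) < 3) g1
    linarith
  have g7 : 0 < Real.log (3 * X) := Real.log_pos (by linarith)
  have g8 : 0 < Real.log X := by linarith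
  refine ⟨g1, g2, g6, ?_, ?_, g5.le⟩
  · calc Real.log (3 * X) ^ (a + κ') ≤ (2 * Real.log X) ^ (a + κ') :=
          Real.rpow_le_rpow g7.le g6 (by linarith)
      _ = 2 ^ (a + κ') * Real.log X ^ (a + κ') := Real.mul_rpow (by norm_num) g8.le
      _ ≤ Real.log X ^ κ' * Real.log X ^ (a + κ') :=
          mul_le_mul_of_nonneg_right g3 (by positivity)
      _ = Real.log X ^ (a + 2 * κ') := by
          rw [← Real.rpow_add g8]; congr 1; ring
  · calc Real.log (3 * X) ^ |A| ≤ (2 * Real.log X) ^ |A| :=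
          Real.rpow_le_rpow g7.le g6 (abs_nonneg _)
      _ = 2 ^ |A| * Real.log X ^ |A| := Real.mul_rpow (by norm_num) g8.le
      _ ≤ _ := g4

theorem core (h : S_MAIN) (μ : Measure ℝ) [IsFiniteMeasure μ] (f : ℝ → ℝ) (B a η A : ℝ)
    (hf : Measurable f) (hfB : ∀ t, |f t| ≤ B) (ha : 0 < a) (hη : 0 < η) (hμa : μ (Set.Iio a) = 0)
    (hμA : μ (Set.Ioi A) = 0) (hf0 : ∀ t, a ≤ t → t ≤ a + η → 0 ≤ f t)
    (hfp : ∀ κ : ℝ, 0 < κ → 0 < ∫ t in Set.Icc a (a + κ), f t ∂μ) (σ : ℝ) (hσ : σ = 1 ∨ σ = -1) :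
    ∃ δ : ℝ, 0 < δ ∧ ∀ᶠ X : ℝ in atTop, ∃ n : ℕ, X < n ∧ (n : ℝ) < 3 * X ∧
      δ ≤ σ * ((∫ t, f t * R n (Real.log n ^ t) ∂μ) - ∫ t, f t ∂μ) := by
  obtain ⟨κ, hκ, hM⟩ := h a η ha hη
  set κ1 := min κ η with hκ1
  have hκ10 : 0 < κ1 := lt_min hκ hη
  set κ' := κ1 / 2 with hκ'
  have hκ'0 : 0 < κ' := by positivity
  have h2κ' : 2 * κ' = κ1 := by rw [hκ']; ring
  have hκ'η : κ' ≤ η := by
    have : κ1 ≤ η := min_le_right _ _
    linarith
  set I0 := ∫ t in Set.Icc a (a + κ'), f t ∂μ with hI0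
  have hI0p : 0 < I0 := hfp κ' hκ'0
  set Dm := μ.real Set.univ with hDm
  have hDm0 : 0 ≤ Dm := measureReal_nonneg
  have hB0 : 0 ≤ B := (abs_nonneg _).trans (hfB 0)
  set C := 8 * (B * Dm + 1) / I0 with hC
  have hC0 : 0 < C := by positivity
  obtain ⟨δ, hδ, hM2⟩ := hM C σ hC0 hσ
  have hσabs : |σ| = 1 := by rcases hσ with h | h <;> simp [h]
  have hσsq : σ * σ = 1 := by rcases hσ with h | h <;> simp [h]
  refine ⟨δ * I0 / 2, by positivity, ?_⟩
  -- the size of the error
  set o := δ * I0 / (8 * (I0 + B * Dm)) with ho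
  have ho0 : 0 < o := by positivity
  set e0 := o / (1 + δ + δ / C) with he0
  have he00 : 0 < e0 := by positivity
  have hae : ∀ᵐ t ∂μ, a ≤ t ∧ t ≤ A := by
    have h1 : ∀ᵐ t ∂μ, t ∉ Set.Iio a := measure_eq_zero_iff_ae_notMem.1 hμa
    have h2 : ∀ᵐ t ∂μ, t ∉ Set.Ioi A := measure_eq_zero_iff_ae_notMem.1 hμA
    filter_upwards [h1, h2] with t h3 h4
    exact ⟨not_lt.1 h3, not_lt.1 h4⟩
  have hfint : Integrable f μ :=
    Integrable.of_bound hf.aestronglyMeasurable B (Eventually.of_forall fun t => hfB t)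
  filter_upwards [hM2 1 one_pos, ev_facts a κ' A e0 hκ'0 ha he00] with X hX1 hX2
  obtain ⟨W, w, -, -, hw0, hwn, hw1, m1, m2, m3⟩ := hX1
  obtain ⟨x1, x2, x3, x4, x5, x6⟩ := hX2
  rw [h2κ'] at x4
  set L := Real.log X with hL
  have hL0 : 0 < L := by linarith
  have hX0 : 0 < X := by linarith
  have hL3 : L ≤ Real.log (3 * X) := Real.log_le_log hX0 (by linarith)
  set θ := (L / Real.log (3 * X)) ^ |A| with hθ
  have hL30 : 0 < Real.log (3 * X) := by linarith
  have hq0 : 0 < L / Real.log (3 * X) := by positivity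
  have hq1 : L / Real.log (3 * X) ≤ 1 := by rw [div_le_one hL30]; exact hL3
  have hθ0 : 0 < θ := by positivity
  have hθ1 : θ ≤ 1 := Real.rpow_le_one hq0.le hq1 (abs_nonneg _)
  -- the sums
  set N := ⌊3 * X⌋₊ with hN
  set Mf : ℝ → ℝ := fun y => ∑ n ∈ Icc 1 N, w n * R n y with hMf
  set mf : ℝ → ℝ := fun t => ∑ n ∈ Icc 1 N, w n * R n (Real.log n ^ t) with hmf
  have hnfact : ∀ n : ℕ, w n ≠ 0 → X < n ∧ (n : ℝ) < 3 * X ∧ 1 < n ∧ L ≤ Real.log n ∧
      Real.log n ≤ Real.log (3 * X) := by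
    intro n hn
    obtain ⟨h1, h2, _⟩ := hwn n hn
    have h3 : (1 : ℝ) < n := by linarith
    refine ⟨h1, h2, by exact_mod_cast h3, Real.log_le_log hX0 h1.le,
      Real.log_le_log (by linarith) h2.le⟩
  have hcmp : ∀ t, a ≤ t → t ≤ A → θ * Mf (L ^ t) ≤ mf t ∧ θ * mf t ≤ Mf (Real.log (3 * X) ^ t) := by
    intro t hta htA
    have ht0 : 0 ≤ t := by linarith
    have htA' : t ≤ |A| := htA.trans (le_abs_self A)
    have hθy : θ * Real.log (3 * X) ^ t ≤ L ^ t := by
      have h1 : θ ≤ (L / Real.log (3 * X)) ^ t :=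
        Real.rpow_le_rpow_of_exponent_ge hq0 hq1 htA'
      calc θ * Real.log (3 * X) ^ t ≤ (L / Real.log (3 * X)) ^ t * Real.log (3 * X) ^ t :=
            mul_le_mul_of_nonneg_right h1 (by positivity)
        _ = L ^ t := by
            rw [← Real.mul_rpow hq0.le hL30.le, div_mul_cancel₀ _ hL30.ne']
    constructor
    · simp only [hMf, hmf]
      rw [Finset.mul_sum]
      refine Finset.sum_le_sum fun n _ => ?_
      by_cases hn : w n = 0
      · rw [hn]; simp
      · obtain ⟨_, _, h1, h2, h3⟩ := hnfact n hn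
        have h4 : L ^ t ≤ Real.log n ^ t := Real.rpow_le_rpow hL0.le h2 ht0
        have h5 : Real.log n ^ t ≤ Real.log (3 * X) ^ t :=
          Real.rpow_le_rpow (by linarith) h3 ht0
        have h6 := R_cmp h1 hθ0.le (show 0 < L ^ t by positivity) h4
          ((mul_le_mul_of_nonneg_left h5 hθ0.le).trans hθy)
        calc θ * (w n * R n (L ^ t)) = w n * (θ * R n (L ^ t)) := by ring
          _ ≤ _ := mul_le_mul_of_nonneg_left h6 (hw0 n).1
    · simp only [hMf, hmf]
      rw [Finset.mul_sum]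
      refine Finset.sum_le_sum fun n _ => ?_
      by_cases hn : w n = 0
      · rw [hn]; simp
      · obtain ⟨_, _, h1, h2, h3⟩ := hnfact n hn
        have hln : 0 < Real.log n := by linarith
        have h4 : L ^ t ≤ Real.log n ^ t := Real.rpow_le_rpow hL0.le h2 ht0
        have h5 : Real.log n ^ t ≤ Real.log (3 * X) ^ t :=
          Real.rpow_le_rpow (by linarith) h3 ht0
        have h6 := R_cmp h1 hθ0.le (show 0 < Real.log n ^ t by positivity) h5 (hθy.trans h4)
        calc θ * (w n * R n (Real.log n ^ t)) = w n * (θ * R n (Real.log n ^ t)) := by ring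
          _ ≤ _ := mul_le_mul_of_nonneg_left h6 (hw0 n).1
  -- ranges
  have hrange : ∀ t, a ≤ t → t ≤ A → L ^ a ≤ L ^ t ∧ L ^ t ≤ X ^ (9 / 10 : ℝ) ∧
      L ^ a ≤ Real.log (3 * X) ^ t ∧ Real.log (3 * X) ^ t ≤ X ^ (9 / 10 : ℝ) := by
    intro t hta htA
    have ht0 : 0 ≤ t := by linarith
    have htA' : t ≤ |A| := htA.trans (le_abs_self A)
    have h1 : L ^ a ≤ L ^ t := Real.rpow_le_rpow_of_exponent_le x2 hta
    have h2 : L ^ t ≤ Real.log (3 * X) ^ t := Real.rpow_le_rpow hL0.le hL3 ht0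
    have h3 : Real.log (3 * X) ^ t ≤ Real.log (3 * X) ^ |A| :=
      Real.rpow_le_rpow_of_exponent_le (by linarith) htA'
    exact ⟨h1, (h2.trans h3).trans x5, h1.trans h2, h3.trans x5⟩
  -- `1 / θ - 1 ≤ e0`
  have hθe : 1 ≤ (1 + e0) * θ := x6
  have hkey : ∀ t, a ≤ t → t ≤ A → ∀ u : ℝ, -(δ / C) ≤ u → u ≤ δ →
      u ≤ σ * (Mf (L ^ t) - 1) → u ≤ σ * (Mf (Real.log (3 * X) ^ t) - 1) →
      u - o ≤ σ * (mf t - 1) := by
    intro t hta htA u hu1 hu2 h1 h2
    obtain ⟨c1, c2⟩ := hcmp t hta htA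
    have hoe : e0 * (1 + δ + δ / C) = o := by rw [he0]; field_simp
    have hδC : 0 < δ / C := by positivity
    rcases hσ with hs | hs
    · rw [hs] at h1 ⊢
      -- mf t ≥ θ (1 + u)
      have g1 : θ * (1 + u) ≤ mf t := by
        refine le_trans ?_ c1
        apply mul_le_mul_of_nonneg_left _ hθ0.le
        linarith
      -- (1 - θ) (1 + u) ≤ o
      have g2 : (1 - θ) ≤ e0 := by
        have : e0 * θ ≤ e0 := by nlinarith
        linarith
      have g3 : (1 - θ) * (1 + u) ≤ o := by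
        calc (1 - θ) * (1 + u) ≤ (1 - θ) * (1 + δ + δ / C) :=
              mul_le_mul_of_nonneg_left (by linarith) (by linarith)
          _ ≤ e0 * (1 + δ + δ / C) := mul_le_mul_of_nonneg_right g2 (by positivity)
          _ = o := hoe
      linarith
    · rw [hs] at h2 ⊢
      -- θ mf t ≤ 1 - u
      have g1 : θ * mf t ≤ 1 - u := by linarith
      -- 1 - u + o ≥ mf t
      by_contra hcon
      rw [not_le] at hcon
      have g2 : 1 - u + o < mf t := by linarith
      have g3 : θ * (1 - u + o) < 1 - u := by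
        have := mul_lt_mul_of_pos_left g2 hθ0
        linarith
      -- (1 + e0) θ (1 - u + o) < (1 + e0)(1 - u); 1 - u + o ≥ 0
      rcases le_or_gt 0 (1 - u + o) with g4 | g4
      · have g5 : 1 - u + o ≤ (1 + e0) * (θ * (1 - u + o)) := by nlinarith
        have g6 : (1 + e0) * (θ * (1 - u + o)) < (1 + e0) * (1 - u) :=
          mul_lt_mul_of_pos_left g3 (by linarith)
        have g7 : e0 * (1 - u) ≤ o := by
          rw [← hoe]
          apply mul_le_mul_of_nonneg_left _ he00.le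
          linarith
        linarith
      · nlinarith
  have hA1 : ∀ t, a ≤ t → t ≤ A → t ≤ a + κ' → δ - o ≤ σ * (mf t - 1) := by
    intro t hta htA htκ
    have ht0 : 0 ≤ t := by linarith
    obtain ⟨r1, r2, r3, r4⟩ := hrange t hta htA
    have r5 : Real.log (3 * X) ^ t ≤ L ^ (a + κ) := by
      calc Real.log (3 * X) ^ t ≤ Real.log (3 * X) ^ (a + κ') :=
            Real.rpow_le_rpow_of_exponent_le (by linarith) htκ
        _ ≤ L ^ (a + κ1) := x4
        _ ≤ L ^ (a + κ) := by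
            apply Real.rpow_le_rpow_of_exponent_le x2
            have : κ1 ≤ κ := min_le_left _ _
            linarith
    have r6 : L ^ t ≤ Real.log (3 * X) ^ t := Real.rpow_le_rpow hL0.le hL3 ht0
    have hδC : 0 < δ / C := by positivity
    exact hkey t hta htA δ (by linarith) le_rfl (m1 _ r1 (r6.trans r5)) (m1 _ r3 r5)
  have hA2 : ∀ t, a ≤ t → t ≤ A → -(δ / C) - o ≤ σ * (mf t - 1) := by
    intro t hta htA
    obtain ⟨r1, r2, r3, r4⟩ := hrange t hta htA
    have hδC : 0 < δ / C := by positivity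
    exact hkey t hta htA (-(δ / C)) le_rfl (by linarith) (m2 _ r1 r2) (m2 _ r3 r4)
  have hA3 : ∀ t, a + η ≤ t → t ≤ A → |mf t - 1| ≤ δ / C + o := by
    intro t hta htA
    have hta' : a ≤ t := by linarith
    have ht0 : 0 ≤ t := by linarith
    obtain ⟨r1, r2, r3, r4⟩ := hrange t hta' htA
    have hδC : 0 < δ / C := by positivity
    have r5 : L ^ (a + η) ≤ L ^ t := Real.rpow_le_rpow_of_exponent_le x2 hta
    have r6 : L ^ t ≤ Real.log (3 * X) ^ t := Real.rpow_le_rpow hL0.le hL3 ht0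
    have q1 := abs_le.1 (m3 _ r5 r2)
    have q2 := abs_le.1 (m3 _ (r5.trans r6) r4)
    have hoe : e0 * (1 + δ + δ / C) = o := by rw [he0]; field_simp
    obtain ⟨c1, c2⟩ := hcmp t hta' htA
    have g2 : (1 - θ) ≤ e0 := by
      have : e0 * θ ≤ e0 := by nlinarith
      linarith
    have o1 : e0 * (1 + δ / C) ≤ o := by
      rw [← hoe]
      apply mul_le_mul_of_nonneg_left _ he00.le
      linarith
    rw [abs_le]
    constructor
    · -- mf t ≥ θ (1 - δ/C)
      have g1 : θ * (1 - δ / C) ≤ mf t := by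
        refine le_trans ?_ c1
        apply mul_le_mul_of_nonneg_left _ hθ0.le
        have := q1.1
        simp only [hMf] at this ⊢
        linarith
      have g3 : (1 - θ) * (1 - δ / C) ≤ e0 * (1 + δ / C) := by
        calc (1 - θ) * (1 - δ / C) ≤ (1 - θ) * (1 + δ / C) :=
              mul_le_mul_of_nonneg_left (by linarith) (by linarith)
          _ ≤ _ := mul_le_mul_of_nonneg_right g2 (by positivity)
      linarith
    · -- θ mf t ≤ 1 + δ/C
      have g1 : θ * mf t ≤ 1 + δ / C := by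
        have := q2.2
        simp only [hMf] at this c2
        linarith
      by_contra hcon
      rw [not_le] at hcon
      have g4 : 1 + δ / C + o < mf t := by linarith
      have g5 : θ * (1 + δ / C + o) < 1 + δ / C := by
        have := mul_lt_mul_of_pos_left g4 hθ0
        linarith
      have g6 : 1 + δ / C + o ≤ (1 + e0) * (θ * (1 + δ / C + o)) := by
        have : 0 ≤ 1 + δ / C + o := by positivity
        nlinarith
      have g7 : (1 + e0) * (θ * (1 + δ / C + o)) < (1 + e0) * (1 + δ / C) :=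
        mul_lt_mul_of_pos_left g5 (by linarith)
      linarith
  -- pointwise lower bound
  have hδC : 0 < δ / C := by positivity
  have hpt : ∀ᵐ t ∂μ, (Set.Icc a (a + κ')).indicator (fun t => f t * (δ - o)) t - B * (δ / C + o) ≤
      σ * (f t * mf t - f t) := by
    filter_upwards [hae] with t ht
    obtain ⟨hta, htA⟩ := ht
    have hfb := abs_le.1 (hfB t)
    have e1 : σ * (f t * mf t - f t) = f t * (σ * (mf t - 1)) := by ring
    rw [e1]
    by_cases h1 : t ≤ a + κ'
    · rw [Set.indicator_of_mem (show t ∈ Set.Icc a (a + κ') from ⟨hta, h1⟩)]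
      have h2 := hf0 t hta (by linarith)
      have h3 := mul_le_mul_of_nonneg_left (hA1 t hta htA h1) h2
      have h4 : 0 ≤ B * (δ / C + o) := by positivity
      linarith
    · rw [Set.indicator_of_notMem (fun h => h1 h.2)]
      rcases le_or_gt t (a + η) with h2 | h2
      · have h3 := hf0 t hta h2
        have h4 := mul_le_mul_of_nonneg_left (hA2 t hta htA) h3
        have h5 : f t * (δ / C + o) ≤ B * (δ / C + o) :=
          mul_le_mul_of_nonneg_right hfb.2 (by positivity)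
        linarith
      · have h3 := hA3 t h2.le htA
        have h4 : |f t * (σ * (mf t - 1))| ≤ B * (δ / C + o) := by
          rw [abs_mul, abs_mul, hσabs, one_mul]
          exact mul_le_mul (hfB t) h3 (abs_nonneg _) hB0
        have h5 := (abs_le.1 h4).1
        linarith
  -- integrability
  have hRint : ∀ n : ℕ, w n ≠ 0 → Integrable (fun t => f t * R n (Real.log n ^ t)) μ := by
    intro n hn
    obtain ⟨_, _, h1, h2, h3⟩ := hnfact n hn
    have hm : Measurable (fun t => f t * R n (Real.log n ^ t)) := hf.mul (meas_R n h1)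
    apply Integrable.of_bound hm.aestronglyMeasurable
      (B * ((Nat.primeCounting ⌊(n : ℝ) + Real.log n ^ A⌋₊ : ℝ) / (Real.log n ^ a / Real.log n)))
    filter_upwards [hae] with t ht
    rw [norm_mul]
    exact mul_le_mul (hfB t) (bdd_R n h1 (by linarith) t ht.1 ht.2) (norm_nonneg _) hB0
  have hterm : ∀ n ∈ Icc 1 N, Integrable (fun t => w n * (f t * R n (Real.log n ^ t))) μ := by
    intro n _
    by_cases hn : w n = 0
    · simp only [hn, zero_mul]
      exact integrable_zero _ _ _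
    · exact (hRint n hn).const_mul _
  have hfm : (fun t => f t * mf t) = fun t => ∑ n ∈ Icc 1 N, w n * (f t * R n (Real.log n ^ t)) := by
    funext t
    simp only [hmf]
    rw [Finset.mul_sum]
    refine Finset.sum_congr rfl fun n _ => ?_
    ring
  have hfmint : Integrable (fun t => f t * mf t) μ := by
    rw [hfm]
    exact integrable_finsetSum _ hterm
  have hfmval : ∫ t, f t * mf t ∂μ = ∑ n ∈ Icc 1 N, w n * ∫ t, f t * R n (Real.log n ^ t) ∂μ := by
    rw [hfm, integral_finsetSum _ hterm]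
    refine Finset.sum_congr rfl fun n _ => ?_
    rw [integral_const_mul]
  -- the integral inequality
  have hint : δ * I0 / 2 ≤ σ * ((∫ t, f t * mf t ∂μ) - ∫ t, f t ∂μ) := by
    have hL1 : Integrable (fun t => (Set.Icc a (a + κ')).indicator (fun t => f t * (δ - o)) t -
        B * (δ / C + o)) μ := by
      apply Integrable.sub
      · exact (hfint.mul_const _).indicator measurableSet_Icc
      · exact integrable_const _
    have hL2 : Integrable (fun t => σ * (f t * mf t - f t)) μ := (hfmint.sub hfint).const_mul _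
    have h1 := integral_mono_ae hL1 hL2 hpt
    rw [integral_sub ((hfint.mul_const _).indicator measurableSet_Icc) (integrable_const _),
      integral_indicator measurableSet_Icc, integral_mul_const, ← hI0, integral_const,
      integral_const_mul, integral_sub hfmint hfint, smul_eq_mul, ← hDm] at h1
    refine le_trans ?_ h1
    -- (δ - o) I0 - Dm B (δ/C + o) ≥ δ I0 / 2
    have e1 : o * (I0 + B * Dm) = δ * I0 / 8 := by
      rw [ho]
      have : I0 + B * Dm ≠ 0 := by positivity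
      field_simp
    have e2 : B * Dm * (δ / C) ≤ δ * I0 / 8 := by
      have e3 : δ / C = δ * I0 / (8 * (B * Dm + 1)) := by
        rw [hC]; field_simp
      rw [e3, ← mul_div_assoc, div_le_div_iff₀ (by positivity) (by norm_num)]
      have : 0 ≤ δ * I0 := by positivity
      nlinarith
    have e4 : 0 ≤ δ * I0 := by positivity
    nlinarith
  rw [hfmval] at hint
  -- pigeonhole
  by_contra hcon
  push Not at hcon
  set F := ∫ t, f t ∂μ with hF
  have hlt : ∑ n ∈ Icc 1 N, w n * (σ * ((∫ t, f t * R n (Real.log n ^ t) ∂μ) - F) - δ * I0 / 2) < 0 := by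
    apply Finset.sum_neg'
    · intro n _
      by_cases hn : w n = 0
      · rw [hn, zero_mul]
      · obtain ⟨h1, h2, _⟩ := hnfact n hn
        have h3 := hcon n h1 h2
        exact mul_nonpos_of_nonneg_of_nonpos (hw0 n).1 (by linarith)
    · by_contra hno
      push Not at hno
      have h1 : ∑ n ∈ Icc 1 N, w n = 0 := by
        apply Finset.sum_eq_zero
        intro n hn
        by_contra hwn0
        obtain ⟨h1, h2, _⟩ := hnfact n hwn0
        have h3 := hcon n h1 h2
        have h4 := hno n hn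
        have h5 : 0 < w n := lt_of_le_of_ne (hw0 n).1 (Ne.symm hwn0)
        nlinarith
      rw [hw1] at h1
      exact one_ne_zero h1
  have heq : ∑ n ∈ Icc 1 N, w n * (σ * ((∫ t, f t * R n (Real.log n ^ t) ∂μ) - F) - δ * I0 / 2) =
      σ * ((∑ n ∈ Icc 1 N, w n * ∫ t, f t * R n (Real.log n ^ t) ∂μ) - F) - δ * I0 / 2 := by
    have e1 : ∀ n ∈ Icc 1 N, w n * (σ * ((∫ t, f t * R n (Real.log n ^ t) ∂μ) - F) - δ * I0 / 2) =
        σ * (w n * ∫ t, f t * R n (Real.log n ^ t) ∂μ) - (σ * F + δ * I0 / 2) * w n := by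
      intro n _
      ring
    rw [Finset.sum_congr rfl e1, Finset.sum_sub_distrib, ← Finset.mul_sum, ← Finset.mul_sum, hw1]
    ring
  rw [heq] at hlt
  linarith

theorem t_LIN (h : S_MAIN) : S_LIN := by
  intro μ hμ f B a η A hf hfB ha hη hμa hμA hf0 hfp
  have := hμ
  obtain ⟨δ1, h1, e1⟩ := core h μ f B a η A hf hfB ha hη hμa hμA hf0 hfp 1 (Or.inl rfl)
  obtain ⟨δ2, h2, e2⟩ := core h μ f B a η A hf hfB ha hη hμa hμA hf0 hfp (-1) (Or.inr rfl)
  refine ⟨min δ1 δ2, lt_min h1 h2, ?_⟩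
  filter_upwards [e1, e2] with X g1 g2
  obtain ⟨n, n1, n2, n3⟩ := g1
  obtain ⟨m, k1, k2, k3⟩ := g2
  have l1 : min δ1 δ2 ≤ δ1 := min_le_left _ _
  have l2 : min δ1 δ2 ≤ δ2 := min_le_right _ _
  exact ⟨⟨n, n1, n2, by linarith⟩, ⟨m, k1, k2, by linarith⟩⟩

end Pool.Agent.N610.MS.LIN
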