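import Mathlib
import Pool.Agent.N610.MS.Stm

set_option autoImplicit false

/-!
# Separation of scales in Maier's theorem: from the matrix and the sieve to the main theorem
(helper221 for helper610)
-/

namespace Pool.Agent.N610.MS

open Finset Filter
open Pool.Agent.H378R2 (WW PW GoodS)

namespace MAIN

/-- the number of the primes of `(n, n + Y]` -/
lemma cnt_eq (n Y : ℕ) : (Nat.primeCounting (n + Y) : ℝ) - Nat.primeCounting n =
    ((Ioc n (n + Y)).filter Nat.Prime).card := by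
  have h : Nat.primeCounting (n + Y) = Nat.primeCounting n +
      ((Ioc n (n + Y)).filter Nat.Prime).card := by
    simp only [Nat.primeCounting, Nat.primeCounting', Nat.count_eq_card_filter_range]
    rw [← Finset.card_union_of_disjoint]
    · congr 1
      ext m
      simp only [Finset.mem_union, Finset.mem_filter, Finset.mem_range, Finset.mem_Ioc]
      constructor
      · rintro ⟨h1, h2⟩
        by_cases h3 : m < n + 1
        · exact Or.inl ⟨h3, h2⟩
        · exact Or.inr ⟨⟨by omega, by omega⟩, h2⟩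
      · rintro (⟨h1, h2⟩ | ⟨⟨h1, h3⟩, h2⟩)
        · exact ⟨by omega, h2⟩
        · exact ⟨by omega, h2⟩
    · rw [Finset.disjoint_left]
      intro m hm hm'
      simp only [Finset.mem_filter, Finset.mem_range, Finset.mem_Ioc] at hm hm'
      omega
  rw [h]
  push_cast
  ring

/-- comparison of `lp` and `R` -/
lemma lp_R {n : ℕ} {y : ℝ} (hn : 1 ≤ n) (hy : 0 < y) :
    |R n y - lp n ⌊y⌋₊ / y| ≤ ⌊y⌋₊ / (n : ℝ) := by
  set Y := ⌊y⌋₊ with hY
  have hn0 : (0 : ℝ) < n := by exact_mod_cast hn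
  have hYy : (Y : ℝ) ≤ y := Nat.floor_le hy.le
  have hY0 : (0 : ℝ) ≤ Y := Nat.cast_nonneg Y
  have e1 : ⌊(n : ℝ) + y⌋₊ = n + Y := by
    rw [add_comm, Nat.floor_add_natCast hy.le, add_comm]
  have e2 : ⌊(n : ℝ)⌋₊ = n := Nat.floor_natCast n
  set T := (Ioc n (n + Y)).filter Nat.Prime with hT
  have e3 : R n y = T.card * Real.log n / y := by
    unfold R
    rw [e1, e2, cnt_eq, div_div_eq_mul_div]
  have e4 : lp n Y = ∑ m ∈ T, Real.log m := by
    unfold lp
    rw [hT, Finset.sum_filter]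
  have hTcard : (T.card : ℝ) ≤ Y := by
    have : T.card ≤ (Ioc n (n + Y)).card := Finset.card_filter_le _ _
    rw [Nat.card_Ioc] at this
    exact_mod_cast (by omega : T.card ≤ Y)
  have h1 : T.card * Real.log n ≤ lp n Y := by
    rw [e4, ← nsmul_eq_mul, ← Finset.sum_const]
    refine Finset.sum_le_sum fun m hm => ?_
    rw [hT, Finset.mem_filter, Finset.mem_Ioc] at hm
    exact Real.log_le_log hn0 (by exact_mod_cast hm.1.1.le)
  have h2 : lp n Y ≤ T.card * Real.log n + Y * (Y / n) := by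
    have h3 : lp n Y ≤ T.card * (Real.log n + Y / n) := by
      rw [e4, ← nsmul_eq_mul, ← Finset.sum_const]
      refine Finset.sum_le_sum fun m hm => ?_
      rw [hT, Finset.mem_filter, Finset.mem_Ioc] at hm
      have hm0 : (0 : ℝ) < m := by
        have : (n : ℝ) < m := by exact_mod_cast hm.1.1
        linarith
      have hm1 : (m : ℝ) ≤ n + Y := by exact_mod_cast hm.1.2
      have h4 : Real.log m - Real.log n ≤ Y / n := by
        rw [← Real.log_div hm0.ne' hn0.ne']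
        refine (Real.log_le_sub_one_of_pos (by positivity)).trans ?_
        rw [div_sub_one hn0.ne']
        gcongr
        linarith
      linarith
    have h5 : (T.card : ℝ) * (Y / n) ≤ Y * (Y / n) := by gcongr
    linarith
  rw [e3, ← sub_div, abs_div, abs_of_pos hy, div_le_iff₀ hy]
  have h6 : |↑T.card * Real.log n - lp n Y| ≤ Y * (Y / n) := by
    rw [abs_le]
    have : 0 ≤ (Y : ℝ) * (Y / n) := by positivity
    constructor <;> linarith
  calc |↑T.card * Real.log n - lp n Y| ≤ Y * (Y / n) := h6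
    _ ≤ Y / n * y := by
        rw [mul_comm]
        gcongr

lemma V_le (P : Finset ℕ) (Y : ℕ) : (V P Y : ℝ) ≤ Y := by
  unfold V
  have : ((Icc 1 Y).filter (fun h => ∀ p ∈ P, ¬ p ∣ h)).card ≤ (Icc 1 Y).card :=
    Finset.card_filter_le _ _
  rw [Nat.card_Icc] at this
  exact_mod_cast (by omega : _ ≤ Y)

/-- the key estimate at one `y` -/
lemma key {X L ρ ε' B y : ℝ} {P : Finset ℕ} {w : ℕ → ℝ} (hX : 1 ≤ X) (hL : 0 < L)
    (hB : B = ∏ p ∈ P, (1 - 1 / (p : ℝ))) (hB2 : 1 / 2 ≤ B) (hρ : |ρ - 1| ≤ ε')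
    (hw0 : ∀ n, 0 ≤ w n) (hw1 : ∀ n, w n ≠ 0 → X < n)
    (hw : ∑ n ∈ Icc 1 ⌊3 * X⌋₊, w n = 1) (hy : 0 < y) (hyX : y ≤ X ^ (9 / 10 : ℝ))
    (hm : |∑ n ∈ Icc 1 ⌊3 * X⌋₊, w n * lp n ⌊y⌋₊ - ρ * (V P ⌊y⌋₊ / B)| ≤ (⌊y⌋₊ : ℝ) / L) :
    |∑ n ∈ Icc 1 ⌊3 * X⌋₊, w n * R n y - rel P y| ≤ 2 * ε' + 1 / L + X ^ (-(1 / 10) : ℝ) := by
  have hX0 : 0 < X := by linarith
  have hB0 : 0 < B := by linarith
  set Y := ⌊y⌋₊ with hY
  have hYy : (Y : ℝ) ≤ y := Nat.floor_le hy.le
  have hY0 : (0 : ℝ) ≤ Y := Nat.cast_nonneg Y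
  have hrel : rel P y = V P Y / B / y := by
    unfold rel
    rw [← hB, div_div, mul_comm B y]
  -- first: R and lp
  have h1 : |∑ n ∈ Icc 1 ⌊3 * X⌋₊, w n * R n y - (∑ n ∈ Icc 1 ⌊3 * X⌋₊, w n * lp n Y) / y| ≤
      X ^ (-(1 / 10) : ℝ) := by
    rw [Finset.sum_div, ← Finset.sum_sub_distrib]
    calc |∑ n ∈ Icc 1 ⌊3 * X⌋₊, (w n * R n y - w n * lp n Y / y)|
        ≤ ∑ n ∈ Icc 1 ⌊3 * X⌋₊, |w n * R n y - w n * lp n Y / y| := Finset.abs_sum_le_sum_abs _ _
      _ ≤ ∑ n ∈ Icc 1 ⌊3 * X⌋₊, w n * X ^ (-(1 / 10) : ℝ) := by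
          refine Finset.sum_le_sum fun n hn => ?_
          rw [Finset.mem_Icc] at hn
          have e : w n * R n y - w n * lp n Y / y = w n * (R n y - lp n Y / y) := by ring
          rw [e, abs_mul, abs_of_nonneg (hw0 n)]
          by_cases hwn : w n = 0
          · rw [hwn]; simp
          · have hXn := hw1 n hwn
            refine mul_le_mul_of_nonneg_left ?_ (hw0 n)
            refine (lp_R hn.1 hy).trans ?_
            calc (Y : ℝ) / n ≤ X ^ (9 / 10 : ℝ) / X := by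
                  apply div_le_div₀ (by positivity) (hYy.trans hyX) hX0 hXn.le
              _ = X ^ (-(1 / 10) : ℝ) := by
                  nth_rw 2 [← Real.rpow_one X]
                  rw [← Real.rpow_sub hX0]
                  norm_num
      _ = X ^ (-(1 / 10) : ℝ) := by rw [← Finset.sum_mul, hw, one_mul]
  have h2 : |(∑ n ∈ Icc 1 ⌊3 * X⌋₊, w n * lp n Y) / y - ρ * rel P y| ≤ 1 / L := by
    rw [hrel]
    have e : (∑ n ∈ Icc 1 ⌊3 * X⌋₊, w n * lp n Y) / y - ρ * (V P Y / B / y) =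
        (∑ n ∈ Icc 1 ⌊3 * X⌋₊, w n * lp n Y - ρ * (V P Y / B)) / y := by ring
    rw [e, abs_div, abs_of_pos hy, div_le_iff₀ hy]
    refine hm.trans ?_
    rw [div_mul_eq_mul_div, one_mul]
    gcongr
  have hrel0 : 0 ≤ rel P y := by rw [hrel]; positivity
  have hrel2 : rel P y ≤ 2 := by
    rw [hrel, div_le_iff₀ hy, div_le_iff₀ hB0]
    have := V_le P Y
    nlinarith
  have h3 : |ρ * rel P y - rel P y| ≤ 2 * ε' := by
    have e : ρ * rel P y - rel P y = (ρ - 1) * rel P y := by ring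
    rw [e, abs_mul, abs_of_nonneg hrel0]
    have : 0 ≤ ε' := (abs_nonneg _).trans hρ
    calc |ρ - 1| * rel P y ≤ ε' * 2 := by gcongr
      _ = 2 * ε' := by ring
  calc |∑ n ∈ Icc 1 ⌊3 * X⌋₊, w n * R n y - rel P y| =
      |(∑ n ∈ Icc 1 ⌊3 * X⌋₊, w n * R n y - (∑ n ∈ Icc 1 ⌊3 * X⌋₊, w n * lp n Y) / y) +
        (((∑ n ∈ Icc 1 ⌊3 * X⌋₊, w n * lp n Y) / y - ρ * rel P y) +
        (ρ * rel P y - rel P y))| := by congr 1; ring
    _ ≤ _ := (abs_add_le _ _).trans (add_le_add le_rfl (abs_add_le _ _))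
    _ ≤ _ := by linarith

end MAIN

theorem t_MAIN (h1 : S_CNT) (h2 : S_ROWS) : S_MAIN := by
  intro a η ha hη
  obtain ⟨κ, hκ, hcnt⟩ := h1 a η ha hη
  refine ⟨κ, hκ, fun C σ hC hσ => ?_⟩
  obtain ⟨δ, hδ, hδ1, hc⟩ := hcnt (2 * C) σ (by positivity) hσ
  refine ⟨δ, hδ, fun ε hε => ?_⟩
  set e0 : ℝ := min δ (δ / (2 * C)) with he0
  have he0p : 0 < e0 := lt_min hδ (by positivity)
  have hr := h2 1 (e0 / 8) (by positivity)
  have hL : Tendsto (fun X : ℝ => 1 / Real.log X) atTop (nhds 0) := by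
    simp only [one_div]
    exact Real.tendsto_log_atTop.inv_tendsto_atTop
  have hX10 : Tendsto (fun X : ℝ => X ^ (-(1 / 10) : ℝ)) atTop (nhds 0) :=
    tendsto_rpow_neg_atTop (by norm_num)
  have hpow : ∀ᶠ X : ℝ in atTop, Real.log X ^ (a + κ) ≤ X ^ (9 / 10 : ℝ) := by
    have := (isLittleO_log_rpow_rpow_atTop (a + κ) (show (0 : ℝ) < 9 / 10 by norm_num)).bound
      (show (0 : ℝ) < 1 by norm_num)
    filter_upwards [this, eventually_ge_atTop (1 : ℝ)] with X hX hX1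
    have hl : 0 ≤ Real.log X := Real.log_nonneg hX1
    rw [one_mul, Real.norm_of_nonneg (Real.rpow_nonneg hl _),
      Real.norm_of_nonneg (Real.rpow_nonneg (by linarith) _)] at hX
    exact hX
  filter_upwards [hc ε hε, hr, hL.eventually_le_const (show (0 : ℝ) < e0 / 4 by positivity),
    hX10.eventually_le_const (show (0 : ℝ) < e0 / 4 by positivity), hpow,
    eventually_gt_atTop (Real.exp 1)] with X hcX hrX hLX hX10X hpowX hXe
  obtain ⟨ps, S, hS, hrow⟩ := hrX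
  obtain ⟨P, hP, hPX, hPB, hc1, hc2, hc3⟩ := hcX S ps hS
  obtain ⟨w, ρ, hρ, hw, hwn, hws, hwm⟩ := hrow P hP hPB
  have hXe1 : 1 < X := by
    have := Real.add_one_le_exp (1 : ℝ)
    linarith
  have hlog : 1 < Real.log X := by
    rw [Real.lt_log_iff_exp_lt (by linarith)]
    exact hXe
  have hW : 0 < ∏ p ∈ P, p := by
    refine Finset.prod_pos fun p hp => ?_
    have h3 := hP hp
    rw [Pool.Agent.H378R2.PW, Finset.mem_filter] at h3
    exact h3.2.1.pos
  have hkey : ∀ y : ℝ, 0 < y → y ≤ X ^ (9 / 10 : ℝ) →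
      |∑ n ∈ Icc 1 ⌊3 * X⌋₊, w n * R n y - rel P y| ≤ e0 := by
    intro y hy hyX
    have h4 := MAIN.key (X := X) (L := Real.log X) (ρ := ρ) (ε' := e0 / 8) (P := P) (w := w)
      (y := y) hXe1.le (by linarith) rfl hPB hρ (fun n => (hw n).1) (fun n hn => (hwn n hn).1) hws hy
      hyX (by
        have h5 : ((⌊y⌋₊ : ℕ) : ℝ) ≤ X ^ (9 / 10 : ℝ) := (Nat.floor_le hy.le).trans hyX
        have h6 := hwm ⌊y⌋₊ h5
        rwa [pow_one] at h6)
    linarith
  have he1 : e0 ≤ δ := min_le_left _ _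
  have he2 : e0 ≤ δ / (2 * C) := min_le_right _ _
  have hhalf : δ / (2 * C) + δ / (2 * C) = δ / C := by field_simp; ring
  have hσa : ∀ z : ℝ, |σ * z| = |z| := by
    intro z
    rcases hσ with h | h <;> rw [h] <;> simp
  refine ⟨∏ p ∈ P, p, w, hW, hPX, hw, fun n hn => hwn n hn, hws, ?_, ?_, ?_⟩
  · intro y hy1 hy2
    have hy0 : 0 < y := lt_of_lt_of_le (Real.rpow_pos_of_pos (by linarith) _) hy1
    have h4 := hkey y hy0 (hy2.trans hpowX)
    have h5 := hc1 y hy1 hy2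
    rw [← hσa] at h4
    have h6 := (abs_le.1 h4).1
    have e : σ * (∑ n ∈ Icc 1 ⌊3 * X⌋₊, w n * R n y - 1) =
        σ * (∑ n ∈ Icc 1 ⌊3 * X⌋₊, w n * R n y - rel P y) + σ * (rel P y - 1) := by ring
    rw [e]
    linarith
  · intro y hy1 hy2
    have hy0 : 0 < y := lt_of_lt_of_le (Real.rpow_pos_of_pos (by linarith) _) hy1
    have h4 := hkey y hy0 hy2
    have h5 := hc2 y hy1
    rw [← hσa] at h4
    have h6 := (abs_le.1 h4).1
    have e : σ * (∑ n ∈ Icc 1 ⌊3 * X⌋₊, w n * R n y - 1) =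
        σ * (∑ n ∈ Icc 1 ⌊3 * X⌋₊, w n * R n y - rel P y) + σ * (rel P y - 1) := by ring
    rw [e]
    linarith
  · intro y hy1 hy2
    have hy0 : 0 < y := lt_of_lt_of_le (Real.rpow_pos_of_pos (by linarith) _) hy1
    have h4 := hkey y hy0 hy2
    have h5 := hc3 y hy1
    have e : ∑ n ∈ Icc 1 ⌊3 * X⌋₊, w n * R n y - 1 =
        (∑ n ∈ Icc 1 ⌊3 * X⌋₊, w n * R n y - rel P y) + (rel P y - 1) := by ring
    rw [e]
    refine (abs_add_le _ _).trans ?_
    linarith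

end Pool.Agent.N610.MS
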