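import Pool.Agent.N610.MS.Stm
import Pool.Agent.H510R2.Maier.MB5

set_option autoImplicit false

/-!
# Project MS, part ROWS: rows of the Maier matrix for every submodulus (helper835, after
`Pool.Agent.H510R2.Maier.rows_sums`)
-/

namespace Pool.Agent.N610.MS

namespace ROWS

open Finset Filter Topology
open Pool.Agent.H378R2
open Pool.Agent.H510R2.Maier

lemma thw_eq_lp (n Y : ℕ) : thw n Y = lp n Y := by
  unfold thw lp
  refine Finset.sum_nbij' (fun h => n + h) (fun m => m - n) ?_ ?_ ?_ ?_ ?_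
  · intro h hh
    rw [Finset.mem_Icc] at hh
    rw [Finset.mem_Ioc]
    omega
  · intro m hm
    rw [Finset.mem_Ioc] at hm
    rw [Finset.mem_Icc]
    omega
  · intro h _
    show n + h - n = h
    omega
  · intro m hm
    rw [Finset.mem_Ioc] at hm
    show n + (m - n) = m
    omega
  · intro h _
    rfl

lemma VV_eq_V {P : Finset ℕ} (hP : ∀ p ∈ P, p.Prime) (Y : ℕ) : VV (∏ p ∈ P, p) 0 Y = V P Y := by
  unfold VV V
  congr 1
  refine Finset.filter_congr fun h _ => ?_
  rw [zero_add, Nat.coprime_prod_right_iff]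
  refine forall₂_congr fun p hp => ?_
  rw [Nat.coprime_comm, (hP p hp).coprime_iff_not_dvd]

lemma sub_decomp {X : ℝ} {S : Finset ℕ} {ps : ℕ} {P : Finset ℕ} (hP : P ⊆ PW X S ps) :
    ∃ W2 : ℕ, 0 < W2 ∧ (∏ p ∈ P, p).Coprime W2 ∧ (∏ p ∈ P, p) * W2 = WW X S ps ∧
      ((∏ p ∈ P, p : ℕ) : ℝ) ≤ WW X S ps := by
  classical
  have hAp : ∀ p ∈ P, p.Prime := fun p hp => (mem_PW.1 (hP hp)).2.1
  have hBp : ∀ p ∈ PW X S ps \ P, p.Prime := fun p hp => (mem_PW.1 (Finset.mem_sdiff.1 hp).1).2.1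
  have hdis : Disjoint P (PW X S ps \ P) := Finset.disjoint_sdiff
  have hprod : (∏ p ∈ P, p) * ∏ p ∈ PW X S ps \ P, p = WW X S ps := by
    unfold WW
    rw [← Finset.prod_union hdis, Finset.union_sdiff_of_subset hP]
  have hpos : 0 < ∏ p ∈ PW X S ps \ P, p := Finset.prod_pos fun p hp => (hBp p hp).pos
  refine ⟨_, hpos, prod_coprime_of_disjoint hAp hBp hdis, hprod, ?_⟩
  have : (∏ p ∈ P, p) ≤ WW X S ps := by
    rw [← hprod]
    exact Nat.le_mul_of_pos_right _ hpos
  exact_mod_cast this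

lemma ev_rows (A : ℕ) : ∀ᶠ L : ℝ in atTop,
    1920 * L ^ (A + 1) * Real.exp (9 / 10 * L) * Real.exp (L / 700) ≤ Real.exp L := by
  have h1 : Tendsto (fun L : ℝ => L ^ (A + 1) * Real.exp (-(1 / 20) * L)) atTop (𝓝 0) := by
    have := Real.tendsto_pow_mul_exp_neg_atTop_nhds_zero (A + 1)
    have h2 := this.comp (tendsto_id.const_mul_atTop (show (0 : ℝ) < 1 / 20 by norm_num))
    have h3 := h2.const_mul ((20 : ℝ) ^ (A + 1))
    rw [mul_zero] at h3
    refine h3.congr fun L => ?_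
    simp only [Function.comp, id]
    rw [show -(1 / 20) * L = -(1 / 20 * L) by ring, ← mul_assoc, ← mul_pow]
    congr 2
    ring
  have h2 : ∀ᶠ L : ℝ in atTop, L ^ (A + 1) * Real.exp (-(1 / 20) * L) < 1 / 1920 :=
    h1.eventually_lt_const (by norm_num)
  filter_upwards [h2, eventually_ge_atTop (0 : ℝ)] with L h3 h4
  have h5 : 1920 * L ^ (A + 1) * Real.exp (9 / 10 * L) * Real.exp (L / 700) =
      1920 * (L ^ (A + 1) * Real.exp (-(1 / 20) * L)) * Real.exp (L * (19 / 20 + 1 / 700)) := by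
    have : Real.exp (9 / 10 * L) * Real.exp (L / 700) =
        Real.exp (-(1 / 20) * L) * Real.exp (L * (19 / 20 + 1 / 700)) := by
      rw [← Real.exp_add, ← Real.exp_add]
      congr 1
      ring
    rw [mul_assoc, this]
    ring
  rw [h5]
  have h6 : Real.exp (L * (19 / 20 + 1 / 700)) ≤ Real.exp L := Real.exp_le_exp.2 (by nlinarith)
  have h7 : 0 ≤ L ^ (A + 1) * Real.exp (-(1 / 20) * L) := by positivity
  calc 1920 * (L ^ (A + 1) * Real.exp (-(1 / 20) * L)) * Real.exp (L * (19 / 20 + 1 / 700))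
      ≤ 1920 * (1 / 1920) * Real.exp L := by gcongr
    _ = Real.exp L := by ring

lemma ev_M (K : ℝ) (hK : 0 < K) : ∀ᶠ X : ℝ in atTop, K * Real.exp (Real.log X / 700) ≤ X := by
  have h1 : Tendsto (fun L : ℝ => Real.exp (-(699 / 700) * L)) atTop (𝓝 0) := by
    apply Real.tendsto_exp_atBot.comp
    exact tendsto_id.const_mul_atTop_of_neg (by norm_num)
  have h2 : ∀ᶠ X : ℝ in atTop, Real.exp (-(699 / 700) * Real.log X) < 1 / K :=
    Real.tendsto_log_atTop.eventually (h1.eventually_lt_const (by positivity))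
  filter_upwards [h2, eventually_gt_atTop (0 : ℝ)] with X h3 h4
  have h5 : Real.exp (Real.log X / 700) = X * Real.exp (-(699 / 700) * Real.log X) := by
    nth_rewrite 2 [← Real.exp_log h4]
    rw [← Real.exp_add]
    congr 1
    ring
  rw [h5]
  calc K * (X * Real.exp (-(699 / 700) * Real.log X)) ≤ K * (X * (1 / K)) := by gcongr
    _ = X := by field_simp

end ROWS

open ROWS Finset Filter Topology
open Pool.Agent.H378R2
open Pool.Agent.H510R2.Maier

set_option maxHeartbeats 4000000 in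
/-- rows of the Maier matrix for every submodulus -/
theorem t_ROWS : S_ROWS := by
  classical
  intro A ε hε
  obtain ⟨X1, hX1⟩ := bvrel_holds (A + 1) 2
  have hlogtop : Tendsto Real.log atTop atTop := Real.tendsto_log_atTop
  filter_upwards [lphi_mphi (ε / 80) (by positivity), hlogtop.eventually (ev_rows A),
    ev_M (400 / ε) (by positivity), ev_M 200 (by norm_num), eventually_ge_atTop X1,
    eventually_ge_atTop (1024 : ℝ), hlogtop.eventually_ge_atTop (160 : ℝ)] with X h1 h2 h4 h4' h5 h6 h7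
  obtain ⟨ps, S, hps, hS, hbv⟩ := hX1 X h5
  refine ⟨ps, S, hS, fun P hP hhalf => ?_⟩
  have hXpos : 0 < X := by linarith
  obtain ⟨W2, hW2, hco, hWprod, hWDle⟩ := sub_decomp hP
  have hPp : ∀ p ∈ P, p.Prime := fun p hp => (mem_PW.1 (hP hp)).2.1
  have hW0 : 0 < ∏ p ∈ P, p := Finset.prod_pos fun p hp => (hPp p hp).pos
  set Bp : ℝ := ∏ p ∈ P, (1 - 1 / (p : ℝ)) with hBp
  have hVeq := fun Y => VV_eq_V hPp Y
  have htot : (((∏ p ∈ P, p : ℕ).totient : ℕ) : ℝ) = ((∏ p ∈ P, p : ℕ) : ℝ) * Bp :=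
    Pool.Agent.H510R2.Maier.totient_prod P hPp
  set W := ∏ p ∈ P, p with hW
  have hWr : (0 : ℝ) < W := by exact_mod_cast hW0
  have hφ0 : (0 : ℝ) < W.totient := by exact_mod_cast Nat.totient_pos.2 hW0
  have hφ2 : (0 : ℝ) < W2.totient := by exact_mod_cast Nat.totient_pos.2 hW2
  have hWle : (W : ℝ) ≤ Real.exp (Real.log X / 700) := hWDle.trans (WW_le X (by linarith) S ps)
  set L := Real.log X with hL
  have hexpL : Real.exp L = X := Real.exp_log hXpos
  have hL0 : 0 < L := by linarith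
  have hsqrt : Real.sqrt X = Real.exp (L / 2) := by
    rw [← hexpL, Real.sqrt_eq_iff_mul_self_eq (Real.exp_pos _).le (Real.exp_pos _).le, ← Real.exp_add]
    congr 1; ring
  have hl4 : Real.log (4 * X) ≤ 2 * L := by
    rw [Real.log_mul (by norm_num) hXpos.ne']
    have : Real.log 4 ≤ 2 := by
      rw [show (4 : ℝ) = 2 ^ 2 by norm_num, Real.log_pow]
      have := Real.log_two_lt_d9
      push_cast; linarith
    linarith
  have hl40 : 0 ≤ Real.log (4 * X) := Real.log_nonneg (by linarith)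
  set E0 := X / (((WW X S ps).totient : ℝ) * L ^ (A + 1)) with hE0
  have hEb0 := single_bound X (WW X S ps) ps (A + 1) (by linarith) E0 hbv
  have hWp0 : ∀ p : ℕ, p.Prime → p ∣ WW X S ps → (p : ℝ) ≤ X := by
    intro p hp hpW
    have h8 := (mem_PW.1 ((prime_dvd_WW hp).1 hpW)).1
    have h9 : (p : ℝ) ≤ yy X := by exact_mod_cast h8
    have h10 : (yy X : ℝ) ≤ L / 1000 := Nat.floor_le (by positivity)
    have h11 : L ≤ X := by
      have := Real.add_one_le_exp L
      linarith
    linarith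
  have hWp : ∀ p : ℕ, p.Prime → p ∣ W → (p : ℝ) ≤ X := fun p hp hd =>
    hWp0 p hp (hd.trans ⟨W2, hWprod.symm⟩)
  have hWp2 : ∀ p : ℕ, p.Prime → p ∣ W2 → (p : ℝ) ≤ X := fun p hp hd =>
    hWp0 p hp (hd.trans ⟨W, by rw [← hWprod]; ring⟩)
  set E := (W2.totient : ℝ) * E0 + 2 * Real.sqrt (3 * X) * Real.log (3 * X) with hE
  have hEb : ∀ b : ℕ, b.Coprime W → |EPhi X W b| ≤ E := by
    intro b hb
    apply EPhi_sub X (by linarith) W W2 hW0 hW2 hco hWp2 E0 _ b hb
    rw [hWprod]
    exact hEb0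
  have hE0eq : (W2.totient : ℝ) * E0 = X / (W.totient * L ^ (A + 1)) := by
    rw [hE0, ← hWprod, Nat.totient_mul hco]
    push_cast
    field_simp
  have hM1 := MPhi_ge X (by linarith)
  set M := MPhi X with hM
  have hM0 : 0 < M := by linarith
  have h3X : 2 * Real.sqrt (3 * X) * Real.log (3 * X) ≤ 4 * Real.sqrt X * Real.log (4 * X) := by
    have a1 : Real.sqrt (3 * X) ≤ 2 * Real.sqrt X := by
      rw [show 2 * Real.sqrt X = Real.sqrt (4 * X) by
        rw [Real.sqrt_mul (by norm_num), show (4 : ℝ) = 2 ^ 2 by norm_num, Real.sqrt_sq (by norm_num)]]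
      exact Real.sqrt_le_sqrt (by linarith)
    have a2 : Real.log (3 * X) ≤ Real.log (4 * X) := Real.log_le_log (by linarith) (by linarith)
    have a3 : 0 ≤ Real.log (3 * X) := Real.log_nonneg (by linarith)
    calc 2 * Real.sqrt (3 * X) * Real.log (3 * X) ≤ 2 * (2 * Real.sqrt X) * Real.log (4 * X) := by gcongr
      _ = _ := by ring
  have hnu := sum_nu X (by linarith) W 0 hW0 (by
    nlinarith [Real.exp_pos (L / 700)])
  rw [abs_le] at hnu
  set N1 := ∑ n ∈ Icc 1 ⌊3 * X⌋₊, nu X W 0 n with hN1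
  have hMW' : M * (1 / (W : ℝ)) = M / W := by ring
  rw [hMW'] at hnu
  have hXW : 200 * (W : ℝ) ≤ X := by nlinarith
  have hXWε : 400 * (W : ℝ) ≤ ε * X := by
    have c1 : 400 / ε * W ≤ X := by
      refine le_trans ?_ h4
      gcongr
    calc 400 * (W : ℝ) = ε * (400 / ε * W) := by field_simp
      _ ≤ ε * X := by gcongr
  have hN1ge : X / (40 * W) ≤ N1 := by
    have c1 : X / (20 * W) ≤ M / W := by
      rw [div_le_div_iff₀ (by positivity) hWr]
      nlinarith
    have c2 : 5 ≤ X / (40 * W) := by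
      rw [le_div_iff₀ (by positivity)]
      linarith
    have c3 : X / (20 * W) = X / (40 * W) + X / (40 * W) := by field_simp; ring
    linarith [hnu.1]
  have hN10 : 0 < N1 := lt_of_lt_of_le (by positivity) hN1ge
  have hB0 : 0 < Bp := lt_of_lt_of_le (by norm_num) hhalf
  refine ⟨fun n => nu X W 0 n / N1, LPhi X / (W * N1), ?_, ?_, ?_, ?_, ?_⟩
  · -- rho
    have c1 : |LPhi X - W * N1| ≤ ε / 80 * X + 5 * W := by
      have c2 : |M - W * N1| ≤ 5 * W := by
        rw [abs_le]
        have e1 : W * (M / W) = M := by field_simp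
        constructor
        · have := mul_le_mul_of_nonneg_left hnu.2 hWr.le
          rw [mul_sub, e1] at this
          linarith
        · have := mul_le_mul_of_nonneg_left hnu.1 hWr.le
          rw [mul_sub, e1] at this
          linarith
      calc |LPhi X - W * N1| = |(LPhi X - M) + (M - W * N1)| := by ring_nf
        _ ≤ |LPhi X - M| + |M - W * N1| := abs_add_le _ _
        _ ≤ _ := add_le_add h1 c2
    have c3 : X / 40 ≤ W * N1 := by
      have := mul_le_mul_of_nonneg_left hN1ge hWr.le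
      have e1 : (W : ℝ) * (X / (40 * W)) = X / 40 := by field_simp
      linarith
    have c4 : 0 < W * N1 := by positivity
    have e1 : LPhi X / (W * N1) - 1 = (LPhi X - W * N1) / (W * N1) := by field_simp
    rw [e1, abs_div, abs_of_pos c4, div_le_iff₀ c4]
    refine c1.trans ?_
    have c5 : ε * (X / 40) ≤ ε * (W * N1) := mul_le_mul_of_nonneg_left c3 hε.le
    linarith
  · intro n
    have c1 : 0 ≤ nu X W 0 n := nu_nonneg _ _ _ _
    refine ⟨by positivity, ?_⟩
    have c2 : nu X W 0 n ≤ 1 / 2 := by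
      unfold nu
      split_ifs
      · exact Phi_le_half _
      · norm_num
    rw [div_le_iff₀ hN10]
    have c3 : 20 * (W : ℝ) / X * (X / (40 * W)) ≤ 20 * (W : ℝ) / X * N1 :=
      mul_le_mul_of_nonneg_left hN1ge (by positivity)
    have e1 : 20 * (W : ℝ) / X * (X / (40 * W)) = 1 / 2 := by field_simp; norm_num
    linarith
  · intro n hn
    have c1 : nu X W 0 n ≠ 0 := by
      intro h
      apply hn
      show nu X W 0 n / N1 = 0
      rw [h, zero_div]
    have c2 : X < n ∧ (n : ℝ) < 3 * X := by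
      by_contra hc
      exact c1 (nu_eq_zero hXpos hc)
    refine ⟨c2.1, c2.2, ?_⟩
    unfold nu at c1
    split_ifs at c1 with hmod
    · exact (Nat.modEq_zero_iff_dvd).1 hmod
    · exact absurd rfl c1
  · show ∑ n ∈ Icc 1 ⌊3 * X⌋₊, nu X W 0 n / N1 = 1
    rw [← Finset.sum_div, div_self hN10.ne']
  · intro Y hY
    have hY0 : (0 : ℝ) ≤ Y := Nat.cast_nonneg _
    have hXr : X ^ (9 / 10 : ℝ) = Real.exp (9 / 10 * L) := by
      rw [Real.rpow_def_of_pos hXpos, mul_comm]
    have hY2 : (Y : ℝ) ≤ X / 2 := by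
      refine hY.trans ?_
      have c1 : (2 : ℝ) ≤ X ^ (1 / 10 : ℝ) := by
        have c2 : ((1024 : ℝ)) ^ (1 / 10 : ℝ) ≤ X ^ (1 / 10 : ℝ) :=
          Real.rpow_le_rpow (by norm_num) h6 (by norm_num)
        have c3 : ((1024 : ℝ)) ^ (1 / 10 : ℝ) = 2 := by
          rw [show (1024 : ℝ) = 2 ^ (10 : ℝ) by norm_num, ← Real.rpow_mul (by norm_num)]
          norm_num
        linarith
      have c4 : X ^ (9 / 10 : ℝ) * X ^ (1 / 10 : ℝ) = X := by
        rw [← Real.rpow_add hXpos]; norm_num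
      have c5 : 0 < X ^ (9 / 10 : ℝ) := Real.rpow_pos_of_pos hXpos _
      rw [le_div_iff₀ (by norm_num)]
      calc X ^ (9 / 10 : ℝ) * 2 ≤ X ^ (9 / 10 : ℝ) * X ^ (1 / 10 : ℝ) := by gcongr
        _ = X := c4
    have hmat := matrix_sum X (by linarith) W 0 Y hY2 hWp E hEb
    have hVeq' : (VV W 0 Y : ℝ) = V P Y := by rw [hVeq Y]
    rw [hVeq'] at hmat
    have e1 : ∑ n ∈ Icc 1 ⌊3 * X⌋₊, nu X W 0 n / N1 * lp n Y -
        LPhi X / (W * N1) * (V P Y / Bp) =
        (∑ n ∈ Icc 1 ⌊3 * X⌋₊, nu X W 0 n * thw n Y -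
          (V P Y : ℝ) * (LPhi X * (1 / (Nat.totient W : ℝ)))) / N1 := by
      rw [htot, sub_div, Finset.sum_div]
      congr 1
      · refine Finset.sum_congr rfl fun n _ => ?_
        rw [thw_eq_lp]
        ring
      · field_simp
    show |∑ n ∈ Icc 1 ⌊3 * X⌋₊, nu X W 0 n / N1 * lp n Y - LPhi X / (W * N1) * (V P Y / Bp)| ≤ _
    rw [e1, abs_div, abs_of_pos hN10, div_le_iff₀ hN10]
    refine hmat.trans ?_
    -- the error
    have g0 : Y * (E + (4 * Y * Real.log (4 * X) + 4 * Real.sqrt X * Real.log (4 * X))) ≤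
        Y * (X / (W.totient * L ^ (A + 1)) + 24 * L * Real.exp (9 / 10 * L)) := by
      apply mul_le_mul_of_nonneg_left _ hY0
      rw [hE, hE0eq]
      have g1 : Real.sqrt X ≤ Real.exp (9 / 10 * L) := by
        rw [hsqrt]
        exact Real.exp_le_exp.2 (by linarith)
      have g2 : (Y : ℝ) ≤ Real.exp (9 / 10 * L) := by rw [← hXr]; exact hY
      have g3 : 8 * Real.sqrt X * Real.log (4 * X) ≤ 8 * Real.exp (9 / 10 * L) * (2 * L) := by gcongr
      have g4 : 4 * Y * Real.log (4 * X) ≤ 4 * Real.exp (9 / 10 * L) * (2 * L) := by gcongr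
      linarith
    refine g0.trans ?_
    have g5 : Y / L ^ A * (X / (40 * W)) ≤ Y / L ^ A * N1 :=
      mul_le_mul_of_nonneg_left hN1ge (by positivity)
    refine le_trans ?_ g5
    have g6 : X / (W.totient * L ^ (A + 1)) ≤ X / (80 * W * L ^ A) := by
      have g7 : 80 * W * L ^ A ≤ W.totient * L ^ (A + 1) := by
        rw [htot, pow_succ]
        have g8 : 80 ≤ Bp * L := by nlinarith
        have g9 : 0 < W * L ^ A := by positivity
        nlinarith
      exact div_le_div_of_nonneg_left hXpos.le (by positivity) g7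
    have g10 : 24 * L * Real.exp (9 / 10 * L) ≤ X / (80 * W * L ^ A) := by
      rw [le_div_iff₀ (by positivity)]
      calc 24 * L * Real.exp (9 / 10 * L) * (80 * W * L ^ A) =
          1920 * L ^ (A + 1) * Real.exp (9 / 10 * L) * W := by ring
        _ ≤ 1920 * L ^ (A + 1) * Real.exp (9 / 10 * L) * Real.exp (L / 700) := by gcongr
        _ ≤ Real.exp L := h2
        _ = X := hexpL
    calc Y * (X / (W.totient * L ^ (A + 1)) + 24 * L * Real.exp (9 / 10 * L)) ≤
        Y * (X / (80 * W * L ^ A) + X / (80 * W * L ^ A)) := by gcongr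
      _ = Y / L ^ A * (X / (40 * W)) := by field_simp; ring

end Pool.Agent.N610.MS
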