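import Pool.Agent.N610.MS.Stm2

set_option autoImplicit false

/-!
# Maier's theorem at all scales simultaneously: the greedy argument (project MS, piece ALL)
-/

namespace Pool.Agent.N610.MS

open Finset Filter

namespace ALLaux

/-- number of primes up to `x`, as a real number -/
noncomputable def pc (x : ℕ) : ℝ := (Nat.primeCounting x : ℝ)

theorem pc_mono : Monotone pc := fun a b h => by
  unfold pc
  exact_mod_cast Nat.monotone_primeCounting h

theorem pc_succ (x : ℕ) : pc (x + 1) = pc x ∨ pc (x + 1) = pc x + 1 := by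
  unfold pc Nat.primeCounting Nat.primeCounting'
  rw [Nat.count_succ Nat.Prime (x + 1)]
  by_cases h : (x + 1).Prime
  · right
    simp [h]
  · left
    simp [h]

theorem pc_add_le (x m : ℕ) : pc (x + m) - pc x ≤ m := by
  induction m with
  | zero => simp
  | succ k ih =>
    have h := pc_succ (x + k)
    rw [← add_assoc]
    push_cast
    rcases h with h | h <;> linarith

theorem greedy_rich (p : ℕ → ℝ) (hm : Monotone p)
    (hs : ∀ x, p (x + 1) = p x ∨ p (x + 1) = p x + 1) {α β : ℝ}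
    (hαβ : ∀ m : ℕ, 1 < α * (m + 1) → α * (m + 1) ≤ β * m) (hβ : 0 ≤ β) (S M : ℕ)
    (hle : ∀ x m : ℕ, p (x + m) - p x ≤ m) :
    ∀ D x, x + D = M → (∀ x', x ≤ x' → x' + S < M →
      ∃ m : ℕ, 1 ≤ m ∧ m ≤ S ∧ p (x' + m) - p x' < α * (m + 1)) → p M - p x ≤ β * D + S := by
  intro D
  induction D using Nat.strong_induction_on with
  | _ D ih =>
    intro x hx hbad
    by_cases hD : D ≤ S
    · have h1 := hle x D
      rw [hx] at h1
      have h2 : (D : ℝ) ≤ S := by exact_mod_cast hD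
      have h3 : 0 ≤ β * D := by positivity
      linarith
    · push Not at hD
      have hxM : x + S < M := by omega
      rcases hs x with h | h
      · -- no prime at x + 1
        have h1 := ih (D - 1) (by omega) (x + 1) (by omega)
          (fun x' hx' hx'' => hbad x' (by omega) hx'')
        rw [h] at h1
        have h2 : ((D - 1 : ℕ) : ℝ) ≤ D := by exact_mod_cast Nat.sub_le D 1
        have h3 : β * ((D - 1 : ℕ) : ℝ) ≤ β * D := mul_le_mul_of_nonneg_left h2 hβ
        linarith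
      · obtain ⟨m, hm1, hmS, hlt⟩ := hbad x le_rfl hxM
        have h1 : 1 ≤ p (x + m) - p x := by
          have : p (x + 1) ≤ p (x + m) := hm (by omega)
          linarith
        have h2 := hαβ m (by linarith)
        have h3 := ih (D - m) (by omega) (x + m) (by omega)
          (fun x' hx' hx'' => hbad x' (by omega) hx'')
        have h4 : ((D - m : ℕ) : ℝ) = D - m := by
          rw [Nat.cast_sub (by omega)]
        rw [h4] at h3
        have h5 : β * ((D : ℝ) - m) = β * D - β * m := by ring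
        linarith

theorem greedy_poor (p : ℕ → ℝ) (hm : Monotone p) {γ : ℝ} (hγ : 0 ≤ γ) (S M : ℕ) :
    ∀ D x, x + D = M → (∀ x', x ≤ x' → x' + S < M →
      ∃ m : ℕ, 1 ≤ m ∧ m ≤ S ∧ γ * m < p (x' + m) - p x') → γ * (D - S) ≤ p M - p x := by
  intro D
  induction D using Nat.strong_induction_on with
  | _ D ih =>
    intro x hx hbad
    by_cases hD : D ≤ S
    · have h2 : (D : ℝ) ≤ S := by exact_mod_cast hD
      have h3 : γ * ((D : ℝ) - S) ≤ 0 := mul_nonpos_of_nonneg_of_nonpos hγ (by linarith)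
      have h4 : p x ≤ p M := hm (by omega)
      linarith
    · push Not at hD
      have hxM : x + S < M := by omega
      obtain ⟨m, hm1, hmS, hlt⟩ := hbad x le_rfl hxM
      have h3 := ih (D - m) (by omega) (x + m) (by omega)
        (fun x' hx' hx'' => hbad x' (by omega) hx'')
      have h4 : ((D - m : ℕ) : ℝ) = D - m := by
        rw [Nat.cast_sub (by omega)]
      rw [h4] at h3
      have h5 : γ * ((D : ℝ) - m - S) = γ * (D - S) - γ * m := by ring
      linarith

/-- counting through the fibres -/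
theorem card_bound (E F : Finset ℕ) (T : ℕ)
    (h : ∀ n ∈ E, ∃ x ∈ F, n ≤ x ∧ x ≤ n + T) : E.card ≤ (T + 1) * F.card := by
  choose! g hg using h
  refine Finset.card_le_mul_card_image_of_maps_to (f := g) (fun n hn => (hg n hn).1) (T + 1) ?_
  intro x _
  have : (E.filter (fun n => g n = x)) ⊆ Finset.Icc (x - T) x := by
    intro n hn
    rw [Finset.mem_filter] at hn
    obtain ⟨hn, hgx⟩ := hn
    have := (hg n hn).2
    rw [Finset.mem_Icc]
    omega
  refine (Finset.card_le_card this).trans ?_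
  rw [Nat.card_Icc]
  omega

/-- mass of a set of integers -/
theorem mass_bound (E : Finset ℕ) (w : ℕ → ℝ) (b c : ℝ) (hb : ∀ n, w n ≤ b)
    (h : c ≤ ∑ n ∈ E, w n) : c ≤ E.card * b := by
  refine h.trans ?_
  calc ∑ n ∈ E, w n ≤ ∑ _n ∈ E, b := Finset.sum_le_sum (fun n _ => hb n)
    _ = E.card * b := by rw [Finset.sum_const, nsmul_eq_mul]

theorem R_eq (n T : ℕ) : R n T = (pc (n + T) - pc n) / (T / Real.log n) := by
  unfold R pc
  have h1 : ⌊((n : ℝ) + (T : ℝ))⌋₊ = n + T := by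
    rw [← Nat.cast_add]
    exact Nat.floor_natCast _
  rw [h1, Nat.floor_natCast]

theorem pri_eq (x : ℕ) (y : ℝ) (hy : 0 ≤ y) : pri x y = pc (x + ⌊y⌋₊) - pc x := by
  unfold pri pc
  rw [add_comm (x : ℝ) y, Nat.floor_add_natCast hy, add_comm ⌊y⌋₊ x]


theorem log_three_le : Real.log 3 ≤ 2 := by
  have h1 : Real.log 3 ≤ 3 - 1 := Real.log_le_sub_one_of_pos (by norm_num)
  linarith

theorem log_four_le : Real.log 4 ≤ 2 := by
  have h2 : Real.log 4 = 2 * Real.log 2 := by
    rw [show (4 : ℝ) = 2 ^ 2 by norm_num, Real.log_pow]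
    norm_num
  have h3 : Real.log 2 < 1 := by linarith [Real.log_two_lt_d9]
  linarith

theorem log_le_of_le {X n : ℕ} (hX : 1 ≤ X) (hn : 1 ≤ n) (h : n ≤ 4 * X) :
    Real.log n ≤ Real.log X + 2 := by
  have hX' : (0 : ℝ) < X := by exact_mod_cast hX
  have hn' : (0 : ℝ) < n := by exact_mod_cast hn
  have h1 : Real.log n ≤ Real.log (4 * X) := Real.log_le_log hn' (by exact_mod_cast h)
  rw [Real.log_mul (by norm_num) hX'.ne'] at h1
  linarith [log_four_le]

/-- the rich integers: counting for a fixed `X` -/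
theorem rich_count (X : ℕ) (hX : 1 ≤ X) (A d : ℝ) (hA : 0 ≤ A) (S T W : ℕ) (w : ℕ → ℝ)
    (hd : 0 < d) (hT : 0 < T)
    (hL1 : 2 ≤ Real.log X) (hL2 : (1 + d / 8) * (2 + 8 / d) ≤ Real.log X)
    (hS : Real.log (4 * X) ^ A ≤ S) (hTX : T ≤ X)
    (hST : (1 + d / 4) * (T / Real.log X) + S < (1 + d / 2) * (T / (Real.log X + 2)))
    (hw0 : ∀ n, 0 ≤ w n) (hwb : ∀ n, w n ≤ 20 * W / X)
    (hws : ∀ n, w n ≠ 0 → (X : ℝ) < n ∧ (n : ℝ) < 3 * X)
    (hw1 : ∑ n ∈ Icc 1 ⌊3 * (X : ℝ)⌋₊, w n = 1)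
    (hwR : 1 + d ≤ ∑ n ∈ Icc 1 ⌊3 * (X : ℝ)⌋₊, w n * R n T) :
    d * X ≤ 80 * Real.log X * W * ((T + 1) * (rich X A (d / 8)).card) := by
  classical
  set L := Real.log X with hLdef
  set N := Icc 1 ⌊3 * (X : ℝ)⌋₊ with hN
  have hX' : (0 : ℝ) < X := by exact_mod_cast hX
  have hT' : (0 : ℝ) < T := by exact_mod_cast hT
  have hL0 : 0 < L := by linarith
  -- the support
  have hsup : ∀ n, w n ≠ 0 → X < n ∧ n < 3 * X := by
    intro n hn
    obtain ⟨h1, h2⟩ := hws n hn
    exact ⟨by exact_mod_cast h1, by exact_mod_cast h2⟩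
  have hlogn : ∀ n, X ≤ n → n ≤ 4 * X → L ≤ Real.log n ∧ Real.log n ≤ L + 2 := by
    intro n h1 h2
    refine ⟨Real.log_le_log hX' (by exact_mod_cast h1), log_le_of_le hX (by omega) h2⟩
  have hR : ∀ n, X ≤ n → n ≤ 4 * X → R n T ≤ 2 * L := by
    intro n h1 h2
    obtain ⟨h3, h4⟩ := hlogn n h1 h2
    have h5 : 0 < Real.log n := by linarith
    rw [R_eq, div_le_iff₀ (by positivity)]
    have h6 := pc_add_le n T
    have h7 : (T : ℝ) = Real.log n * (T / Real.log n) := by field_simp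
    have h8 : Real.log n * (T / Real.log n) ≤ 2 * L * (T / Real.log n) := by
      apply mul_le_mul_of_nonneg_right _ (by positivity)
      linarith
    linarith
  set E := N.filter (fun n => w n ≠ 0 ∧ 1 + d / 2 ≤ R n T) with hE
  have hmass : d / (4 * L) ≤ ∑ n ∈ E, w n := by
    have h1 : ∑ n ∈ N, w n * R n T ≤ ∑ n ∈ N, (w n * (1 + d / 2)
        + (if w n ≠ 0 ∧ 1 + d / 2 ≤ R n T then w n * (2 * L) else 0)) := by
      refine Finset.sum_le_sum (fun n _ => ?_)
      by_cases h0 : w n = 0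
      · simp [h0]
      · obtain ⟨h2, h3⟩ := hsup n h0
        by_cases h4 : 1 + d / 2 ≤ R n T
        · rw [if_pos ⟨h0, h4⟩]
          have h5 := mul_le_mul_of_nonneg_left (hR n (by omega) (by omega)) (hw0 n)
          have h6 : 0 ≤ w n * (1 + d / 2) := mul_nonneg (hw0 n) (by positivity)
          linarith
        · rw [if_neg (by tauto)]
          push Not at h4
          have h5 := mul_le_mul_of_nonneg_left h4.le (hw0 n)
          linarith
    rw [Finset.sum_add_distrib, ← Finset.sum_mul, hw1, ← Finset.sum_filter, ← hE,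
      ← Finset.sum_mul] at h1
    rw [div_le_iff₀ (by positivity)]
    linarith
  have hcardE := mass_bound E w _ _ hwb hmass
  -- from `E` to the rich integers
  have hmap : ∀ n ∈ E, ∃ x ∈ rich X A (d / 8), n ≤ x ∧ x ≤ n + T := by
    intro n hn
    rw [hE, Finset.mem_filter] at hn
    obtain ⟨_, hn0, hnR⟩ := hn
    obtain ⟨hn1, hn2⟩ := hsup n hn0
    obtain ⟨hl1, hl2⟩ := hlogn n (by omega) (by omega)
    have hln : 0 < Real.log n := by linarith
    by_contra hcon
    push Not at hcon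
    have hbad : ∀ x', n ≤ x' → x' + S < n + T →
        ∃ m : ℕ, 1 ≤ m ∧ m ≤ S ∧ pc (x' + m) - pc x' < (1 + d / 8) / L * (m + 1) := by
      intro x' hx' hx''
      have hnr : x' ∉ rich X A (d / 8) := by
        intro hr
        have := hcon x' hr hx'
        omega
      unfold rich at hnr
      rw [Finset.mem_filter] at hnr
      push Not at hnr
      obtain ⟨y, hy1, hy2, hy3⟩ := hnr (by rw [Finset.mem_Ioc]; omega)
      obtain ⟨hx1, hx2⟩ := hlogn x' (by omega) (by omega)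
      have hx0 : 0 < Real.log x' := by linarith
      refine ⟨⌊y⌋₊, Nat.le_floor (by exact_mod_cast hy1), ?_, ?_⟩
      · have h5 : Real.log x' ^ A ≤ Real.log (4 * X) ^ A := by
          refine Real.rpow_le_rpow hx0.le ?_ hA
          have hx00 : (0 : ℝ) < x' := by
            have : 0 < x' := by omega
            exact_mod_cast this
          refine Real.log_le_log hx00 ?_
          have : x' ≤ 4 * X := by omega
          exact_mod_cast this
        exact Nat.floor_le_of_le (by linarith)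
      · rw [← pri_eq x' y (by linarith)]
        refine lt_of_lt_of_le hy3 ?_
        have h6 : y ≤ ⌊y⌋₊ + 1 := (Nat.lt_floor_add_one y).le
        calc (1 + d / 8) * (y / Real.log x') ≤ (1 + d / 8) * ((⌊y⌋₊ + 1) / L) := by
              gcongr
          _ = (1 + d / 8) / L * (⌊y⌋₊ + 1) := by ring
    have hαβ : ∀ m : ℕ, 1 < (1 + d / 8) / L * (m + 1) →
        (1 + d / 8) / L * (m + 1) ≤ (1 + d / 4) / L * m := by
      intro m hm
      have h1 : L < (1 + d / 8) * (m + 1) := by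
        have : (1 + d / 8) / L * (m + 1) = (1 + d / 8) * (m + 1) / L := by ring
        rw [this, lt_div_iff₀ hL0] at hm
        linarith
      have h2 : (2 + 8 / d) ≤ m + 1 := by
        have h3 : (1 + d / 8) * (2 + 8 / d) < (1 + d / 8) * (m + 1) := lt_of_le_of_lt hL2 h1
        exact (lt_of_mul_lt_mul_left h3 (by positivity)).le
      have h4 : d / 8 * (1 + 8 / d) ≤ d / 8 * m := by
        apply mul_le_mul_of_nonneg_left _ (by positivity)
        linarith
      have h5 : d / 8 * (1 + 8 / d) = d / 8 + 1 := by field_simp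
      have h6 : (1 + d / 8) * (m + 1) ≤ (1 + d / 4) * m := by
        nlinarith
      calc (1 + d / 8) / L * (m + 1) = (1 + d / 8) * (m + 1) / L := by ring
        _ ≤ (1 + d / 4) * m / L := by gcongr
        _ = _ := by ring
    have hg := greedy_rich pc pc_mono pc_succ hαβ (by positivity) S (n + T) pc_add_le T n rfl hbad
    rw [R_eq, le_div_iff₀ (by positivity)] at hnR
    have h7 : (1 + d / 2) * (T / (L + 2)) ≤ (1 + d / 2) * (T / Real.log n) := by
      gcongr
    have h8 : (1 + d / 4) / L * T = (1 + d / 4) * (T / L) := by ring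
    linarith
  have hfib := card_bound E (rich X A (d / 8)) T hmap
  have hfib' : (E.card : ℝ) ≤ (T + 1) * (rich X A (d / 8)).card := by exact_mod_cast hfib
  rw [div_le_iff₀ (by positivity)] at hcardE
  have h9 : (E.card : ℝ) * (20 * W / X) * (4 * L) = 80 * L * W * E.card / X := by ring
  rw [h9, le_div_iff₀ hX'] at hcardE
  refine hcardE.trans ?_
  have hW0 : (0 : ℝ) ≤ W := Nat.cast_nonneg W
  gcongr

/-- the poor integers: counting for a fixed `X` -/
theorem poor_count (X : ℕ) (hX : 1 ≤ X) (A d : ℝ) (hA : 0 ≤ A) (S T W : ℕ) (w : ℕ → ℝ)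
    (hd : 0 < d) (hT : 0 < T)
    (hL1 : 2 ≤ Real.log X) (hL2 : 32 / d ≤ Real.log X)
    (hS : Real.log (4 * X) ^ A ≤ S) (hTX : T ≤ X)
    (hST : (S : ℝ) < 3 * d / 8 * T)
    (hw0 : ∀ n, 0 ≤ w n) (hwb : ∀ n, w n ≤ 20 * W / X)
    (hws : ∀ n, w n ≠ 0 → (X : ℝ) < n ∧ (n : ℝ) < 3 * X)
    (hw1 : ∑ n ∈ Icc 1 ⌊3 * (X : ℝ)⌋₊, w n = 1)
    (hwR : ∑ n ∈ Icc 1 ⌊3 * (X : ℝ)⌋₊, w n * R n T ≤ 1 - d) :
    d * X ≤ 40 * W * ((T + 1) * (poor X A (d / 16)).card) := by
  classical
  set L := Real.log X with hLdef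
  set N := Icc 1 ⌊3 * (X : ℝ)⌋₊ with hN
  have hX' : (0 : ℝ) < X := by exact_mod_cast hX
  have hT' : (0 : ℝ) < T := by exact_mod_cast hT
  have hL0 : 0 < L := by linarith
  have hsup : ∀ n, w n ≠ 0 → X < n ∧ n < 3 * X := by
    intro n hn
    obtain ⟨h1, h2⟩ := hws n hn
    exact ⟨by exact_mod_cast h1, by exact_mod_cast h2⟩
  have hlogn : ∀ n, X ≤ n → n ≤ 4 * X → L ≤ Real.log n ∧ Real.log n ≤ L + 2 := by
    intro n h1 h2
    refine ⟨Real.log_le_log hX' (by exact_mod_cast h1), log_le_of_le hX (by omega) h2⟩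
  have hR0 : ∀ n, X ≤ n → n ≤ 4 * X → 0 ≤ R n T := by
    intro n h1 h2
    obtain ⟨h3, h4⟩ := hlogn n h1 h2
    have h5 : 0 < Real.log n := by linarith
    rw [R_eq]
    apply div_nonneg _ (by positivity)
    have : pc n ≤ pc (n + T) := pc_mono (by omega)
    linarith
  have hwR0 : 0 ≤ ∑ n ∈ N, w n * R n T := by
    refine Finset.sum_nonneg (fun n _ => ?_)
    by_cases h0 : w n = 0
    · simp [h0]
    · obtain ⟨h2, h3⟩ := hsup n h0
      exact mul_nonneg (hw0 n) (hR0 n (by omega) (by omega))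
  have hd1 : d ≤ 1 := by linarith
  set E := N.filter (fun n => w n ≠ 0 ∧ R n T ≤ 1 - d / 2) with hE
  have hmass : d / 2 ≤ ∑ n ∈ E, w n := by
    have h1 : ∑ n ∈ N, (w n * (1 - d / 2)
        - (if w n ≠ 0 ∧ R n T ≤ 1 - d / 2 then w n * (1 - d / 2) else 0)) ≤
        ∑ n ∈ N, w n * R n T := by
      refine Finset.sum_le_sum (fun n _ => ?_)
      by_cases h0 : w n = 0
      · simp [h0]
      · obtain ⟨h2, h3⟩ := hsup n h0
        by_cases h4 : R n T ≤ 1 - d / 2
        · rw [if_pos ⟨h0, h4⟩]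
          have h5 := mul_nonneg (hw0 n) (hR0 n (by omega) (by omega))
          linarith
        · rw [if_neg (by tauto)]
          push Not at h4
          have h5 := mul_le_mul_of_nonneg_left h4.le (hw0 n)
          linarith
    rw [Finset.sum_sub_distrib, ← Finset.sum_mul, hw1, ← Finset.sum_filter, ← hE,
      ← Finset.sum_mul] at h1
    have h2 : 0 ≤ ∑ n ∈ E, w n := Finset.sum_nonneg (fun n _ => hw0 n)
    nlinarith
  have hcardE := mass_bound E w _ _ hwb hmass
  have hmap : ∀ n ∈ E, ∃ x ∈ poor X A (d / 16), n ≤ x ∧ x ≤ n + T := by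
    intro n hn
    rw [hE, Finset.mem_filter] at hn
    obtain ⟨_, hn0, hnR⟩ := hn
    obtain ⟨hn1, hn2⟩ := hsup n hn0
    obtain ⟨hl1, hl2⟩ := hlogn n (by omega) (by omega)
    have hln : 0 < Real.log n := by linarith
    by_contra hcon
    push Not at hcon
    have hbad : ∀ x', n ≤ x' → x' + S < n + T →
        ∃ m : ℕ, 1 ≤ m ∧ m ≤ S ∧ (1 - d / 8) / L * m < pc (x' + m) - pc x' := by
      intro x' hx' hx''
      have hnr : x' ∉ poor X A (d / 16) := by
        intro hr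
        have := hcon x' hr hx'
        omega
      unfold poor at hnr
      rw [Finset.mem_filter] at hnr
      push Not at hnr
      obtain ⟨y, hy1, hy2, hy3⟩ := hnr (by rw [Finset.mem_Ioc]; omega)
      obtain ⟨hx1, hx2⟩ := hlogn x' (by omega) (by omega)
      have hx0 : 0 < Real.log x' := by linarith
      rw [pri_eq x' y hy1.le] at hy3
      refine ⟨⌊y⌋₊, ?_, ?_, ?_⟩
      · by_contra h0
        have h00 : ⌊y⌋₊ = 0 := by omega
        rw [h00, add_zero, sub_self] at hy3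
        have : 0 ≤ (1 - d / 16) * (y / Real.log x') :=
          mul_nonneg (by linarith) (by positivity)
        linarith
      · have h5 : Real.log x' ^ A ≤ Real.log (4 * X) ^ A := by
          refine Real.rpow_le_rpow hx0.le ?_ hA
          have hx00 : (0 : ℝ) < x' := by
            have : 0 < x' := by omega
            exact_mod_cast this
          refine Real.log_le_log hx00 ?_
          have : x' ≤ 4 * X := by omega
          exact_mod_cast this
        exact Nat.floor_le_of_le (by linarith)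
      · refine lt_of_le_of_lt ?_ hy3
        have h6 : (⌊y⌋₊ : ℝ) ≤ y := Nat.floor_le hy1.le
        have h7 : (1 - d / 8) * (L + 2) ≤ (1 - d / 16) * L := by
          rw [div_le_iff₀ hd] at hL2
          nlinarith
        have h8 : (1 - d / 8) / L ≤ (1 - d / 16) / (L + 2) := by
          rw [div_le_div_iff₀ hL0 (by linarith)]
          exact h7
        have h9 : (1 - d / 16) / (L + 2) ≤ (1 - d / 16) / Real.log x' :=
          div_le_div_of_nonneg_left (by linarith) hx0 hx2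
        calc (1 - d / 8) / L * ⌊y⌋₊ ≤ (1 - d / 16) / Real.log x' * y := by
              apply mul_le_mul (h8.trans h9) h6 (by positivity)
              exact div_nonneg (by linarith) hx0.le
          _ = (1 - d / 16) * (y / Real.log x') := by ring
    have hγ : 0 ≤ (1 - d / 8) / L := div_nonneg (by linarith) hL0.le
    have hg := greedy_poor pc pc_mono hγ S (n + T) T n rfl hbad
    rw [R_eq, div_le_iff₀ (by positivity)] at hnR
    have h7 : (1 - d / 2) * (T / Real.log n) ≤ (1 - d / 2) * (T / L) := by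
      apply mul_le_mul_of_nonneg_left _ (by linarith)
      exact div_le_div_of_nonneg_left hT'.le hL0 hl1
    have h8 : (1 - d / 8) / L * (T - S) ≤ (1 - d / 2) * (T / L) := by linarith
    have h9 : (1 - d / 8) * (T - S) ≤ (1 - d / 2) * T := by
      have h10 := mul_le_mul_of_nonneg_right h8 hL0.le
      have h11 : (1 - d / 8) / L * (T - S) * L = (1 - d / 8) * (T - S) := by field_simp
      have h12 : (1 - d / 2) * (T / L) * L = (1 - d / 2) * T := by field_simp
      linarith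
    have h13 : (0 : ℝ) ≤ S := Nat.cast_nonneg S
    nlinarith
  have hfib := card_bound E (poor X A (d / 16)) T hmap
  have hfib' : (E.card : ℝ) ≤ (T + 1) * (poor X A (d / 16)).card := by exact_mod_cast hfib
  have h9 : (E.card : ℝ) * (20 * W / X) = 20 * W * E.card / X := by ring
  rw [h9, le_div_iff₀ hX'] at hcardE
  have hW0 : (0 : ℝ) ≤ W := Nat.cast_nonneg W
  have h10 : (W : ℝ) * E.card ≤ W * ((T + 1) * (poor X A (d / 16)).card) :=
    mul_le_mul_of_nonneg_left hfib' hW0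
  linarith


theorem final_ineq (X : ℕ) (hX : 1 ≤ X) {ε d c r : ℝ} (hd : 0 < d) (hr : 0 ≤ r)
    (h1 : c ≤ d * (X : ℝ) ^ (ε / 2)) (W : ℝ) (hW0 : 0 ≤ W) (hW : W ≤ (X : ℝ) ^ (ε / 2))
    (h2 : d * X ≤ c * W * r) : (X : ℝ) ^ (1 - ε) ≤ r := by
  have hX' : (0 : ℝ) < X := by exact_mod_cast hX
  have hXe : 0 < (X : ℝ) ^ (ε / 2) := Real.rpow_pos_of_pos hX' _
  have h3 : c * W * r ≤ d * (X : ℝ) ^ (ε / 2) * (X : ℝ) ^ (ε / 2) * r := by
    apply mul_le_mul_of_nonneg_right _ hr
    calc c * W ≤ d * (X : ℝ) ^ (ε / 2) * W := mul_le_mul_of_nonneg_right h1 hW0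
      _ ≤ d * (X : ℝ) ^ (ε / 2) * (X : ℝ) ^ (ε / 2) :=
        mul_le_mul_of_nonneg_left hW (by positivity)
  have h4 : (X : ℝ) ^ (ε / 2) * (X : ℝ) ^ (ε / 2) = (X : ℝ) ^ ε := by
    rw [← Real.rpow_add hX']
    congr 1
    ring
  have h5 : d * X ≤ d * ((X : ℝ) ^ ε * r) := by
    calc d * (X : ℝ) ≤ d * (X : ℝ) ^ (ε / 2) * (X : ℝ) ^ (ε / 2) * r := h2.trans h3
      _ = d * (((X : ℝ) ^ (ε / 2) * (X : ℝ) ^ (ε / 2)) * r) := by ring
      _ = _ := by rw [h4]
  have h6 : (X : ℝ) ≤ (X : ℝ) ^ ε * r := le_of_mul_le_mul_left h5 hd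
  rw [Real.rpow_sub hX', Real.rpow_one, div_le_iff₀ (Real.rpow_pos_of_pos hX' _)]
  linarith

theorem rich_mono (X : ℕ) (hX : 1 ≤ X) (A : ℝ) {δ δ' : ℝ} (h : δ ≤ δ') :
    rich X A δ' ⊆ rich X A δ := by
  classical
  intro x hx
  unfold rich at hx ⊢
  rw [Finset.mem_filter] at hx ⊢
  refine ⟨hx.1, fun y hy1 hy2 => le_trans ?_ (hx.2 y hy1 hy2)⟩
  have h1 : 0 ≤ y / Real.log x := div_nonneg (by linarith) (Real.log_natCast_nonneg x)
  exact mul_le_mul_of_nonneg_right (by linarith) h1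

theorem poor_mono (X : ℕ) (hX : 1 ≤ X) (A : ℝ) {δ δ' : ℝ} (h : δ ≤ δ') :
    poor X A δ' ⊆ poor X A δ := by
  classical
  intro x hx
  unfold poor at hx ⊢
  rw [Finset.mem_filter] at hx ⊢
  refine ⟨hx.1, fun y hy1 hy2 => le_trans (hx.2 y hy1 hy2) ?_⟩
  have h1 : 0 ≤ y / Real.log x := div_nonneg (by linarith) (Real.log_natCast_nonneg x)
  exact mul_le_mul_of_nonneg_right (by linarith) h1

/-- elementary facts on the two lengths -/
theorem lengths {A L : ℝ} (hA : 1 ≤ A) (hL : 2 ≤ L) {S T : ℕ} (hS : S = ⌈L ^ (A + 1)⌉₊)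
    (hT : T = ⌈L ^ (A + 3)⌉₊) :
    L ^ (A + 1) ≤ S ∧ (S : ℝ) * L ^ 2 ≤ 2 * T ∧ L ^ (A + 3) ≤ T ∧ (T : ℝ) ≤ 2 * L ^ (A + 3) ∧
      ((T : ℝ) + 1) * L ≤ 3 * L ^ (A + 4) ∧ (0 : ℝ) < T := by
  have hL0 : 0 < L := by linarith
  have hL1 : 1 ≤ L := by linarith
  have e1 : 1 ≤ L ^ (A + 1) := Real.one_le_rpow hL1 (by linarith)
  have e3 : 1 ≤ L ^ (A + 3) := Real.one_le_rpow hL1 (by linarith)
  have s1 : L ^ (A + 1) ≤ S := by rw [hS]; exact Nat.le_ceil _
  have s2 : (S : ℝ) < L ^ (A + 1) + 1 := by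
    rw [hS]; exact Nat.ceil_lt_add_one (by linarith)
  have t1 : L ^ (A + 3) ≤ T := by rw [hT]; exact Nat.le_ceil _
  have t2 : (T : ℝ) < L ^ (A + 3) + 1 := by
    rw [hT]; exact Nat.ceil_lt_add_one (by linarith)
  have r1 : L ^ (A + 1) * L ^ 2 = L ^ (A + 3) := by
    rw [← Real.rpow_natCast L 2, ← Real.rpow_add hL0]
    congr 1
    push_cast
    ring
  have r2 : L ^ (A + 3) * L = L ^ (A + 4) := by
    nth_rewrite 2 [← Real.rpow_one L]
    rw [← Real.rpow_add hL0]
    congr 1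
    ring
  refine ⟨s1, ?_, t1, by linarith, ?_, by linarith⟩
  · have : (S : ℝ) * L ^ 2 ≤ (2 * L ^ (A + 1)) * L ^ 2 :=
      mul_le_mul_of_nonneg_right (by linarith) (by positivity)
    calc (S : ℝ) * L ^ 2 ≤ (2 * L ^ (A + 1)) * L ^ 2 := this
      _ = 2 * (L ^ (A + 1) * L ^ 2) := by ring
      _ = 2 * L ^ (A + 3) := by rw [r1]
      _ ≤ 2 * T := by linarith
  · calc ((T : ℝ) + 1) * L ≤ (3 * L ^ (A + 3)) * L :=
        mul_le_mul_of_nonneg_right (by linarith) hL0.le
      _ = 3 * (L ^ (A + 3) * L) := by ring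
      _ = _ := by rw [r2]

theorem log_four_rpow {A L : ℝ} {X : ℕ} (hX : 1 ≤ X) (hA : 1 ≤ A) (hL : L = Real.log X)
    (h2 : 2 ≤ L) (h3 : 2 ^ A ≤ L) : Real.log (4 * X) ^ A ≤ L ^ (A + 1) := by
  have hX' : (0 : ℝ) < X := by exact_mod_cast hX
  have hL0 : 0 < L := by linarith
  have h4 : Real.log (4 * X) ≤ 2 * L := by
    rw [Real.log_mul (by norm_num) hX'.ne', ← hL]
    linarith [log_four_le]
  have h5 : 0 ≤ Real.log (4 * X) := by
    rw [Real.log_mul (by norm_num) hX'.ne', ← hL]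
    have : 0 ≤ Real.log 4 := Real.log_nonneg (by norm_num)
    linarith
  calc Real.log (4 * X) ^ A ≤ (2 * L) ^ A := Real.rpow_le_rpow h5 h4 (by linarith)
    _ = 2 ^ A * L ^ A := Real.mul_rpow (by norm_num) hL0.le
    _ ≤ L * L ^ A := mul_le_mul_of_nonneg_right h3 (by positivity)
    _ = L ^ (A + 1) := by rw [Real.rpow_add hL0, Real.rpow_one, mul_comm]

theorem hST_rich {L d S T : ℝ} (hd : 0 < d) (hL : 2 ≤ L) (hL2 : 24 / d + 3 ≤ L)
    (hT : 0 < T) (hS : S * L ^ 2 ≤ 2 * T) :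
    (1 + d / 4) * (T / L) + S < (1 + d / 2) * (T / (L + 2)) := by
  have hL0 : 0 < L := by linarith
  have h1 : S ≤ T * (2 / L ^ 2) := by
    rw [mul_div_assoc', le_div_iff₀ (by positivity)]
    linarith
  have h2 : (1 + d / 4) / L + 2 / L ^ 2 < (1 + d / 2) / (L + 2) := by
    have h3 : (1 + d / 4) / L + 2 / L ^ 2 = ((1 + d / 4) * L + 2) / L ^ 2 := by
      field_simp
    rw [h3, div_lt_div_iff₀ (by positivity) (by positivity)]
    have h4 : 24 < d * (L - 2) := by
      have h5 : 24 / d < L - 2 := by linarith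
      rw [div_lt_iff₀ hd] at h5
      linarith
    have h6 : 24 * L < d * (L - 2) * L := mul_lt_mul_of_pos_right h4 hL0
    nlinarith
  calc (1 + d / 4) * (T / L) + S ≤ (1 + d / 4) * (T / L) + T * (2 / L ^ 2) := by linarith
    _ = T * ((1 + d / 4) / L + 2 / L ^ 2) := by ring
    _ < T * ((1 + d / 2) / (L + 2)) := mul_lt_mul_of_pos_left h2 hT
    _ = _ := by ring

theorem hST_poor {L d S T : ℝ} (hd : 0 < d) (hL : 2 ≤ L) (hL2 : 32 / d ≤ L)
    (hT : 0 < T) (hS : S * L ^ 2 ≤ 2 * T) : S < 3 * d / 8 * T := by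
  have hL0 : 0 < L := by linarith
  rw [div_le_iff₀ hd] at hL2
  have h1 : 64 ≤ d * L ^ 2 := by nlinarith
  have h2 : S * L ^ 2 < 3 * d / 8 * T * L ^ 2 := by
    have h3 : 64 * T ≤ d * L ^ 2 * T := mul_le_mul_of_nonneg_right h1 hT.le
    nlinarith
  exact lt_of_mul_lt_mul_right h2 (by positivity)

end ALLaux

/-- **all scales simultaneously** -/
theorem t_ALL (h : S_MAIN) : S_ALL := by
  intro A hA
  obtain ⟨κ, hκ, hmain⟩ := h (A + 3) 1 (by linarith) one_pos
  obtain ⟨d₁, hd₁, h₁⟩ := hmain 1 1 one_pos (Or.inl rfl)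
  obtain ⟨d₂, hd₂, h₂⟩ := hmain 1 (-1) one_pos (Or.inr rfl)
  refine ⟨min (d₁ / 8) (d₂ / 16), by positivity, fun ε hε => ?_⟩
  have hcast := tendsto_natCast_atTop_atTop (R := ℝ)
  have hlog : Tendsto (fun X : ℕ => Real.log (X : ℝ)) atTop atTop :=
    Real.tendsto_log_atTop.comp hcast
  -- powers of the logarithm against powers of `X`
  have hpow : ∀ (s r c : ℝ), 0 < r → 0 < c → ∀ᶠ X : ℕ in atTop,
      Real.log (X : ℝ) ^ s ≤ c * (X : ℝ) ^ r := by
    intro s r c hr hc
    have h1 := (isLittleO_log_rpow_rpow_atTop s hr).def hc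
    have h2 := hcast.eventually h1
    filter_upwards [h2, hlog.eventually_ge_atTop 0] with X hX hX0
    rw [Real.norm_of_nonneg (Real.rpow_nonneg hX0 _),
      Real.norm_of_nonneg (Real.rpow_nonneg (Nat.cast_nonneg X) _)] at hX
    exact hX
  have hkap : ∀ᶠ X : ℕ in atTop, 2 ≤ Real.log (X : ℝ) ^ κ :=
    ((tendsto_rpow_atTop hκ).comp hlog).eventually_ge_atTop 2
  filter_upwards [hcast.eventually (h₁ (ε / 2) (by positivity)),
    hcast.eventually (h₂ (ε / 2) (by positivity)), hkap,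
    hpow (A + 3) 1 (1 / 2) one_pos (by norm_num),
    hpow (A + 4) (ε / 2) (d₁ / 240) (by positivity) (by positivity),
    hpow (A + 4) (ε / 2) (d₂ / 240) (by positivity) (by positivity),
    hlog.eventually_ge_atTop 2, hlog.eventually_ge_atTop ((1 + d₁ / 8) * (2 + 8 / d₁)),
    hlog.eventually_ge_atTop (24 / d₁ + 3), hlog.eventually_ge_atTop (32 / d₂),
    hlog.eventually_ge_atTop (2 ^ A), eventually_ge_atTop 1]
    with X hX₁ hX₂ hk hTX' hp₁ hp₂ hL2 hLa hLb hLc hLd hX1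
  set L := Real.log (X : ℝ) with hL
  obtain ⟨S, hS⟩ : ∃ S : ℕ, S = ⌈L ^ (A + 1)⌉₊ := ⟨_, rfl⟩
  obtain ⟨T, hT⟩ : ∃ T : ℕ, T = ⌈L ^ (A + 3)⌉₊ := ⟨_, rfl⟩
  obtain ⟨l1, l2, l3, l4, l5, l6⟩ := ALLaux.lengths hA hL2 hS hT
  have hL0 : 0 < L := by linarith
  have hT0 : 0 < T := by exact_mod_cast l6
  have hSl : Real.log (4 * X) ^ A ≤ S := (ALLaux.log_four_rpow hX1 hA hL hL2 hLd).trans l1
  have hTX : T ≤ X := by
    rw [Real.rpow_one] at hTX'
    have : (T : ℝ) ≤ X := by linarith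
    exact_mod_cast this
  have hTκ : (T : ℝ) ≤ L ^ (A + 3 + κ) := by
    refine l4.trans ?_
    have hk' : L ^ (A + 3 + κ) = L ^ (A + 3) * L ^ κ := Real.rpow_add hL0 _ _
    rw [hk', mul_comm]
    exact mul_le_mul_of_nonneg_left hk (by positivity)
  have hT1L : ((T : ℝ) + 1) ≤ (T + 1) * L := le_mul_of_one_le_right (by positivity) (by linarith)
  constructor
  · obtain ⟨W, w, hW, hWX, hw1, hw2, hw3, hw4, -, -⟩ := hX₁
    have hR := hw4 T l3 hTκ
    rw [one_mul] at hR
    have hc := ALLaux.rich_count X hX1 A d₁ (by linarith) S T W w hd₁ hT0 hL2 hLa hSl hTX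
      (ALLaux.hST_rich hd₁ hL2 hLb l6 l2) (fun n => (hw1 n).1) (fun n => (hw1 n).2)
      (fun n hn => ⟨(hw2 n hn).1, (hw2 n hn).2.1⟩) hw3 (by linarith)
    have hm := Finset.card_le_card (ALLaux.rich_mono X hX1 A (min_le_left (d₁ / 8) (d₂ / 16)))
    have hm' : ((rich X A (d₁ / 8)).card : ℝ) ≤ (rich X A (min (d₁ / 8) (d₂ / 16))).card := by
      exact_mod_cast hm
    refine le_trans ?_ hm'
    refine ALLaux.final_ineq X hX1 hd₁ (Nat.cast_nonneg _) (c := 80 * L * (T + 1)) ?_ W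
      (Nat.cast_nonneg _) hWX ?_
    · have : 240 * L ^ (A + 4) ≤ d₁ * (X : ℝ) ^ (ε / 2) := by
        have := mul_le_mul_of_nonneg_left hp₁ (by norm_num : (0 : ℝ) ≤ 240)
        linarith
      linarith
    · calc d₁ * (X : ℝ) ≤ _ := hc
        _ = _ := by ring
  · obtain ⟨W, w, hW, hWX, hw1, hw2, hw3, hw4, -, -⟩ := hX₂
    have hR := hw4 T l3 hTκ
    have hc := ALLaux.poor_count X hX1 A d₂ (by linarith) S T W w hd₂ hT0 hL2 hLc hSl hTX
      (ALLaux.hST_poor hd₂ hL2 hLc l6 l2) (fun n => (hw1 n).1) (fun n => (hw1 n).2)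
      (fun n hn => ⟨(hw2 n hn).1, (hw2 n hn).2.1⟩) hw3 (by linarith)
    have hm := Finset.card_le_card (ALLaux.poor_mono X hX1 A (min_le_right (d₁ / 8) (d₂ / 16)))
    have hm' : ((poor X A (d₂ / 16)).card : ℝ) ≤ (poor X A (min (d₁ / 8) (d₂ / 16))).card := by
      exact_mod_cast hm
    refine le_trans ?_ hm'
    refine ALLaux.final_ineq X hX1 hd₂ (Nat.cast_nonneg _) (c := 40 * (T + 1)) ?_ W
      (Nat.cast_nonneg _) hWX ?_
    · have : 240 * L ^ (A + 4) ≤ d₂ * (X : ℝ) ^ (ε / 2) := by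
        have := mul_le_mul_of_nonneg_left hp₂ (by norm_num : (0 : ℝ) ≤ 240)
        linarith
      linarith
    · calc d₂ * (X : ℝ) ≤ _ := hc
        _ = _ := by ring

end Pool.Agent.N610.MS
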