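import Pool.Agent.N610.MS.Stm

set_option autoImplicit false

/-!
# Maier's theorem at all scales simultaneously: statement (project MS, helper610)
-/

namespace Pool.Agent.N610.MS

open Finset Filter

/-- primes in `(x, x + y]` -/
noncomputable def pri (x : ℕ) (y : ℝ) : ℝ :=
  (Nat.primeCounting ⌊(x : ℝ) + y⌋₊ : ℝ) - Nat.primeCounting x

open Classical in
/-- the integers of `(X, 4 X]` with too many primes at all scales up to `(log x) ^ A` -/
noncomputable def rich (X : ℕ) (A δ : ℝ) : Finset ℕ :=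
  (Ioc X (4 * X)).filter fun x => ∀ y : ℝ, 1 ≤ y → y ≤ Real.log x ^ A →
    (1 + δ) * (y / Real.log x) ≤ pri x y

open Classical in
/-- the integers of `(X, 4 X]` with too few primes at all scales up to `(log x) ^ A` -/
noncomputable def poor (X : ℕ) (A δ : ℝ) : Finset ℕ :=
  (Ioc X (4 * X)).filter fun x => ∀ y : ℝ, 0 < y → y ≤ Real.log x ^ A →
    pri x y ≤ (1 - δ) * (y / Real.log x)

/-- all scales -/
def S_ALL : Prop := ∀ A : ℝ, 1 ≤ A → ∃ δ : ℝ, 0 < δ ∧ ∀ ε : ℝ, 0 < ε → ∀ᶠ X : ℕ in atTop,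
  (X : ℝ) ^ (1 - ε) ≤ (rich X A δ).card ∧ (X : ℝ) ^ (1 - ε) ≤ (poor X A δ).card

end Pool.Agent.N610.MS
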